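import Mathlib

set_option autoImplicit false
open Filter Topology Set

namespace Pool.Agent.H77.NF

/-- left end of the supports -/
def lo : Bool → ℝ := fun i => if i then 0 else 1
/-- right end of the supports -/
def hi : Bool → ℝ := fun i => if i then 2 else 3

/-- rational bump functions -/
def Idx : Type := {p : Bool × ℚ × ℚ × ℚ × ℚ //
  lo p.1 < (p.2.1 : ℝ) ∧ (p.2.1 : ℝ) < p.2.2.1 ∧ (p.2.2.1 : ℝ) < p.2.2.2.1 ∧
    (p.2.2.2.1 : ℝ) < p.2.2.2.2 ∧ (p.2.2.2.2 : ℝ) < hi p.1}

instance : Countable Idx := by unfold Idx; infer_instance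

noncomputable instance : Encodable Idx := Encodable.ofCountable _

/-- label -/
def Idx.lab (p : Idx) : Bool := p.1.1

/-- the bump function -/
noncomputable def bump (p : Idx) (x : ℝ) : ℝ :=
  Real.smoothTransition ((x - p.1.2.1) / (p.1.2.2.1 - p.1.2.1)) *
    Real.smoothTransition ((p.1.2.2.2.2 - x) / (p.1.2.2.2.2 - p.1.2.2.2.1))

lemma bump_contDiff (p : Idx) {n : ℕ∞} : ContDiff ℝ n (bump p) := by
  unfold bump
  refine ContDiff.mul ?_ ?_
  · exact Real.smoothTransition.contDiff.comp ((contDiff_id.sub contDiff_const).div_const _)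
  · exact Real.smoothTransition.contDiff.comp ((contDiff_const.sub contDiff_id).div_const _)

lemma bump_zero (p : Idx) {x : ℝ} (hx : x ≤ p.1.2.1 ∨ (p.1.2.2.2.2 : ℝ) ≤ x) : bump p x = 0 := by
  unfold bump
  obtain ⟨h1, h2, h3, h4, h5⟩ := p.2
  rcases hx with h | h
  · rw [Real.smoothTransition.zero_of_nonpos, zero_mul]
    exact div_nonpos_of_nonpos_of_nonneg (by linarith) (by linarith)
  · rw [Real.smoothTransition.zero_of_nonpos (x := (p.1.2.2.2.2 - x) / (p.1.2.2.2.2 - p.1.2.2.2.1)),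
      mul_zero]
    exact div_nonpos_of_nonpos_of_nonneg (by linarith) (by linarith)

lemma bump_one (p : Idx) {x : ℝ} (h : (p.1.2.2.1 : ℝ) ≤ x) (h' : x ≤ p.1.2.2.2.1) :
    bump p x = 1 := by
  unfold bump
  obtain ⟨h1, h2, h3, h4, h5⟩ := p.2
  rw [Real.smoothTransition.one_of_one_le, Real.smoothTransition.one_of_one_le, mul_one]
  · rw [le_div_iff₀ (by linarith)]; linarith
  · rw [le_div_iff₀ (by linarith)]; linarith

lemma bump_out (p : Idx) {x : ℝ} (hx : x ∉ Ioo (lo p.lab) (hi p.lab)) : bump p x = 0 := by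
  obtain ⟨h1, h2, h3, h4, h5⟩ := p.2
  apply bump_zero
  by_contra hcon
  push Not at hcon
  exact hx ⟨h1.trans hcon.1, hcon.2.trans h5⟩

lemma bump_hasCompactSupport (p : Idx) : HasCompactSupport (bump p) := by
  apply HasCompactSupport.intro (K := Icc (p.1.2.1 : ℝ) p.1.2.2.2.2) isCompact_Icc
  intro x hx
  apply bump_zero
  by_contra hcon
  push Not at hcon
  exact hx ⟨hcon.1.le, hcon.2.le⟩

lemma bump_bound (p : Idx) : ∃ M : ℝ, 1 ≤ M ∧ ∀ k : ℕ, k ≤ 2 → ∀ x : ℝ,
    ‖iteratedFDeriv ℝ k (bump p) x‖ ≤ M := by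
  have h : ∀ k : ℕ, ∃ M : ℝ, ∀ x : ℝ, ‖iteratedFDeriv ℝ k (bump p) x‖ ≤ M := by
    intro k
    have h1 : Continuous (iteratedFDeriv ℝ k (bump p)) :=
      ContDiff.continuous_iteratedFDeriv (m := k) (n := ((k : ℕ∞) : WithTop ℕ∞)) (le_refl _)
        (bump_contDiff p)
    exact h1.bounded_above_of_compact_support ((bump_hasCompactSupport p).iteratedFDeriv k)
  choose M hM using h
  refine ⟨max 1 (max (M 0) (max (M 1) (M 2))), le_max_left _ _, ?_⟩
  intro k hk x
  refine (hM k x).trans ?_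
  interval_cases k
  · simp
  · simp
  · simp

/-- bound for the derivatives of a bump -/
noncomputable def Mb (p : Idx) : ℝ := (bump_bound p).choose

lemma Mb_one (p : Idx) : 1 ≤ Mb p := (bump_bound p).choose_spec.1

lemma Mb_le (p : Idx) {k : ℕ} (hk : k ≤ 2) (x : ℝ) : ‖iteratedFDeriv ℝ k (bump p) x‖ ≤ Mb p :=
  (bump_bound p).choose_spec.2 k hk x

/-- the summable weights -/
noncomputable def we : Idx → ℝ := (posSumOfEncodable (show (0 : ℝ) < 1 / 100 by norm_num) Idx).1

lemma we_pos (p : Idx) : 0 < we p :=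
  (posSumOfEncodable (show (0 : ℝ) < 1 / 100 by norm_num) Idx).2.1 p

lemma we_sum : ∃ c, HasSum we c ∧ c ≤ 1 / 100 :=
  (posSumOfEncodable (show (0 : ℝ) < 1 / 100 by norm_num) Idx).2.2

lemma we_summable : Summable we := by
  obtain ⟨c, hc, _⟩ := we_sum
  exact hc.summable

lemma we_tsum : ∑' p, we p ≤ 1 / 100 := by
  obtain ⟨c, hc, h⟩ := we_sum
  rw [hc.tsum_eq]; exact h

/-- parameters -/
abbrev Th : Type := Idx → Icc (-1 : ℝ) 1

/-- coefficient -/
noncomputable def cf (θ : Th) (i : Bool) (p : Idx) : ℝ :=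
  if p.lab = i then (θ p : ℝ) * (we p / Mb p) else 0

lemma cf_le (θ : Th) (i : Bool) (p : Idx) : |cf θ i p| ≤ we p / Mb p := by
  have h0 : 0 ≤ we p / Mb p := div_nonneg (we_pos p).le (zero_le_one.trans (Mb_one p))
  unfold cf
  split_ifs
  · rw [abs_mul, abs_of_nonneg h0]
    have : |(θ p : ℝ)| ≤ 1 := abs_le.2 (θ p).2
    nlinarith [abs_nonneg (θ p : ℝ)]
  · simpa using h0

/-- term of the series -/
noncomputable def tm (θ : Th) (i : Bool) (p : Idx) (x : ℝ) : ℝ := cf θ i p * bump p x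

lemma tm_contDiff (θ : Th) (i : Bool) (p : Idx) {n : ℕ∞} : ContDiff ℝ n (tm θ i p) :=
  contDiff_const.mul (bump_contDiff p)

lemma tm_bound (θ : Th) (i : Bool) (p : Idx) {k : ℕ} (hk : k ≤ 2) (x : ℝ) :
    ‖iteratedFDeriv ℝ k (tm θ i p) x‖ ≤ we p := by
  have h1 : tm θ i p = fun x => cf θ i p • bump p x := by
    ext x; rfl
  have h2 : iteratedFDeriv ℝ k (tm θ i p) x = cf θ i p • iteratedFDeriv ℝ k (bump p) x := by
    rw [h1]
    have h3 : ContDiffAt ℝ ((k : ℕ∞) : WithTop ℕ∞) (bump p) x :=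
      (bump_contDiff (n := (k : ℕ∞)) p).contDiffAt
    exact iteratedFDeriv_const_smul_apply' (a := cf θ i p) (i := k) (f := bump p) (x := x)
      (by exact_mod_cast h3)
  rw [h2, norm_smul, Real.norm_eq_abs]
  have hM := Mb_le p hk x
  have hM1 := Mb_one p
  have hc := cf_le θ i p
  have : |cf θ i p| * ‖iteratedFDeriv ℝ k (bump p) x‖ ≤ (we p / Mb p) * Mb p :=
    mul_le_mul hc hM (norm_nonneg _) (div_nonneg (we_pos p).le (by linarith))
  rwa [div_mul_cancel₀ _ (by linarith)] at this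

lemma tm_bound0 (θ : Th) (i : Bool) (p : Idx) (x : ℝ) : ‖tm θ i p x‖ ≤ we p := by
  have := tm_bound θ i p (k := 0) (by norm_num) x
  rwa [norm_iteratedFDeriv_zero] at this

lemma tm_bound1 (θ : Th) (i : Bool) (p : Idx) (x : ℝ) : ‖deriv (tm θ i p) x‖ ≤ we p := by
  have := tm_bound θ i p (k := 1) (by norm_num) x
  rwa [norm_iteratedFDeriv_one, ← norm_deriv_eq_norm_fderiv] at this

lemma tm_summable (θ : Th) (i : Bool) (x : ℝ) : Summable (fun p => tm θ i p x) :=
  Summable.of_norm_bounded we_summable (fun p => tm_bound0 θ i p x)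

/-- the perturbation -/
noncomputable def pert (θ : Th) (i : Bool) (x : ℝ) : ℝ := ∑' p, tm θ i p x

lemma pert_contDiff (θ : Th) (i : Bool) : ContDiff ℝ 2 (pert θ i) := by
  have := contDiff_tsum (𝕜 := ℝ) (N := 2) (f := tm θ i) (v := fun _ => we)
    (fun p => tm_contDiff θ i p (n := 2)) (fun _ _ => we_summable)
    (fun k p x hk => tm_bound θ i p (by exact_mod_cast hk) x)
  exact this

lemma pert_le (θ : Th) (i : Bool) (x : ℝ) : |pert θ i x| ≤ 1 / 100 := by
  have h1 : ‖∑' p, tm θ i p x‖ ≤ ∑' p, we p :=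
    tsum_of_norm_bounded we_summable.hasSum (fun p => tm_bound0 θ i p x)
  exact h1.trans we_tsum

lemma pert_deriv_le (θ : Th) (i : Bool) (x : ℝ) : |deriv (pert θ i) x| ≤ 1 / 100 := by
  have h0 : deriv (pert θ i) x = ∑' p, deriv (tm θ i p) x :=
    deriv_tsum_apply (y₀ := 0) we_summable (fun p => (tm_contDiff θ i p (n := 1)).differentiable
      (by norm_num)) (fun p y => tm_bound1 θ i p y) (tm_summable θ i 0) x
  have h1 : ‖∑' p, deriv (tm θ i p) x‖ ≤ ∑' p, we p :=
    tsum_of_norm_bounded we_summable.hasSum (fun p => tm_bound1 θ i p x)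
  rw [h0]
  exact h1.trans we_tsum

lemma pert_out (θ : Th) (i : Bool) {x : ℝ} (hx : x ∉ Ioo (lo i) (hi i)) : pert θ i x = 0 := by
  unfold pert
  have : ∀ p, tm θ i p x = 0 := by
    intro p
    unfold tm cf
    split_ifs with h
    · rw [bump_out p (by rw [h]; exact hx), mul_zero]
    · simp
  simp [this]

lemma pert_cont (i : Bool) : Continuous (fun z : Th × ℝ => pert z.1 i z.2) := by
  unfold pert
  refine continuous_tsum (u := we) ?_ we_summable (fun p z => tm_bound0 z.1 i p z.2)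
  intro p
  unfold tm
  refine Continuous.mul ?_ ?_
  · unfold cf
    split_ifs
    · refine Continuous.mul ?_ continuous_const
      exact continuous_subtype_val.comp ((continuous_apply p).comp continuous_fst)
    · exact continuous_const
  · exact (bump_contDiff (n := 0) p).continuous.comp continuous_snd

/-- the maps -/
noncomputable def Hm (θ : Th) (i : Bool) (x : ℝ) : ℝ := x + pert θ i x

lemma Hm_contDiff (θ : Th) (i : Bool) : ContDiff ℝ 2 (Hm θ i) :=
  contDiff_id.add (pert_contDiff θ i)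

lemma Hm_disp (θ : Th) (i : Bool) (x : ℝ) : |Hm θ i x - x| ≤ 1 / 100 := by
  unfold Hm
  rw [add_sub_cancel_left]
  exact pert_le θ i x

lemma Hm_deriv (θ : Th) (i : Bool) (x : ℝ) : 99 / 100 ≤ deriv (Hm θ i) x := by
  have h1 : deriv (Hm θ i) x = 1 + deriv (pert θ i) x := by
    have hd : DifferentiableAt ℝ (pert θ i) x :=
      (pert_contDiff θ i).differentiable (by norm_num) x
    have := (hasDerivAt_id x).add hd.hasDerivAt
    exact this.deriv
  have := (abs_le.1 (pert_deriv_le θ i x)).1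
  rw [h1]; linarith

lemma Hm_out (θ : Th) (i : Bool) {x : ℝ} (hx : x ∉ Ioo (lo i) (hi i)) : Hm θ i x = x := by
  unfold Hm
  rw [pert_out θ i hx, add_zero]

lemma Hm_mono (θ : Th) (i : Bool) : StrictMono (Hm θ i) := by
  apply strictMono_of_deriv_pos
  intro x
  linarith [Hm_deriv θ i x]

lemma Hm_continuous (θ : Th) (i : Bool) : Continuous (Hm θ i) := (Hm_contDiff θ i).continuous

lemma Hm_surj (θ : Th) (i : Bool) : Function.Surjective (Hm θ i) := by
  intro y
  have h1 := abs_le.1 (Hm_disp θ i (y - 1))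
  have h2 := abs_le.1 (Hm_disp θ i (y + 1))
  have := intermediate_value_Icc (a := y - 1) (b := y + 1) (by linarith)
    (Hm_continuous θ i).continuousOn
  obtain ⟨x, _, hx⟩ := this (show y ∈ Icc _ _ from ⟨by linarith, by linarith⟩)
  exact ⟨x, hx⟩

/-- the maps as homeomorphisms -/
noncomputable def Hh (θ : Th) (i : Bool) : ℝ ≃ₜ ℝ :=
  ((Hm_mono θ i).orderIsoOfSurjective _ (Hm_surj θ i)).toHomeomorph

lemma Hh_apply (θ : Th) (i : Bool) (x : ℝ) : Hh θ i x = Hm θ i x := rfl

lemma Hh_symm_contDiff (θ : Th) (i : Bool) : ContDiff ℝ 2 (Hh θ i).symm := by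
  refine (Hh θ i).contDiff_symm_deriv (f' := deriv (Hm θ i)) ?_ ?_ ?_
  · intro x
    have := Hm_deriv θ i x
    linarith
  · intro x
    exact ((Hm_contDiff θ i).differentiable (by norm_num) x).hasDerivAt
  · exact Hm_contDiff θ i

end Pool.Agent.H77.NF
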