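import Mathlib

set_option autoImplicit false

namespace Pool.Agent.H77.NF

lemma subsingleton_of_comm {X : Type*} (h : ∀ x y : FreeGroup X, x * y = y * x) :
    Subsingleton X := by
  classical
  constructor
  intro a b
  by_contra hab
  have h1 := h (FreeGroup.of a) (FreeGroup.of b)
  have h2 := congrArg (FreeGroup.lift (fun x => if x = a then (Equiv.swap (0 : Fin 3) 1 :
    Equiv.Perm (Fin 3)) else Equiv.swap 1 2)) h1
  simp only [map_mul, FreeGroup.lift_apply_of, if_true, if_neg (Ne.symm hab)] at h2
  revert h2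
  decide

lemma zpow_of_subsingleton {X : Type*} [Subsingleton X] (g : X) (x : FreeGroup X) :
    ∃ k : ℤ, x = FreeGroup.of g ^ k := by
  induction x using FreeGroup.induction_on with
  | C1 => exact ⟨0, by simp⟩
  | of y => exact ⟨1, by simp [Subsingleton.elim y g]⟩
  | inv_of y _ => exact ⟨-1, by simp [Subsingleton.elim y g]⟩
  | mul x y hx hy =>
    obtain ⟨k, rfl⟩ := hx
    obtain ⟨l, rfl⟩ := hy
    exact ⟨k + l, by rw [zpow_add]⟩

lemma free_comm {a b : FreeGroup (Fin 2)} (ha : a ≠ 1) (hb : b ≠ 1) (hab : a * b = b * a) :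
    ∃ i j : ℤ, i ≠ 0 ∧ j ≠ 0 ∧ a ^ i = b ^ j := by
  classical
  have hcomm : ∀ x ∈ ({a, b} : Set (FreeGroup (Fin 2))), ∀ y ∈ ({a, b} : Set (FreeGroup (Fin 2))),
      x * y = y * x := by
    rintro x (rfl | rfl) y (rfl | rfl)
    · rfl
    · exact hab
    · exact hab.symm
    · rfl
  set H : Subgroup (FreeGroup (Fin 2)) := Subgroup.closure {a, b} with hH
  have hc : ∀ x y : H, x * y = y * x := (Subgroup.closureCommGroupOfComm hcomm).mul_comm
  let e : H ≃* FreeGroup (IsFreeGroup.Generators H) := IsFreeGroup.toFreeGroup H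
  have hs : Subsingleton (IsFreeGroup.Generators H) := by
    apply subsingleton_of_comm
    intro x y
    have := congrArg e (hc (e.symm x) (e.symm y))
    simpa using this
  have haH : a ∈ H := Subgroup.subset_closure (by simp)
  have hbH : b ∈ H := Subgroup.subset_closure (by simp)
  set a' : H := ⟨a, haH⟩ with ha'
  set b' : H := ⟨b, hbH⟩ with hb'
  rcases isEmpty_or_nonempty (IsFreeGroup.Generators H) with hE | ⟨⟨g⟩⟩
  · exfalso
    apply ha
    have : a' = 1 := e.injective (Subsingleton.elim _ _)
    exact congrArg Subtype.val this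
  · obtain ⟨m, hm⟩ := zpow_of_subsingleton g (e a')
    obtain ⟨n, hn⟩ := zpow_of_subsingleton g (e b')
    have hm0 : m ≠ 0 := by
      rintro rfl
      apply ha
      have : a' = 1 := e.injective (by rw [hm]; simp)
      exact congrArg Subtype.val this
    have hn0 : n ≠ 0 := by
      rintro rfl
      apply hb
      have : b' = 1 := e.injective (by rw [hn]; simp)
      exact congrArg Subtype.val this
    refine ⟨n, m, hn0, hm0, ?_⟩
    have : a' ^ n = b' ^ m := by
      apply e.injective
      rw [map_zpow, map_zpow, hm, hn, ← zpow_mul, ← zpow_mul, mul_comm]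
    exact congrArg Subtype.val this

end Pool.Agent.H77.NF
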