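import Mathlib
import Pool.Agent.H77.NF.Bump

set_option autoImplicit false
open Filter Topology Set

namespace Pool.Agent.H77.NF

/-- special points -/
def sp : Fin 4 → ℝ := ![0, 1, 2, 3]

/-- positions of vertices -/
def pos {n : ℕ} (y : Fin n → ℝ) : Fin n ⊕ Fin 4 → ℝ := Sum.elim y sp

lemma pos_contDiff {n : ℕ} (v : Fin n ⊕ Fin 4) : ContDiff ℝ 2 (fun y : Fin n → ℝ => pos y v) := by
  rcases v with v | v
  · exact contDiff_apply ℝ ℝ v
  · exact contDiff_const

/-- combinatorial types of overdetermined systems -/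
abbrev Ty : Type := Σ n : ℕ, (Fin (n + 1) → Idx × (Fin n ⊕ Fin 4) × (Fin n ⊕ Fin 4))

/-- the region where the bumps separate the sources -/
def Yset (τ : Ty) : Set (Fin τ.1 → ℝ) :=
  {y | (∀ i, y i ∈ Icc (-10 : ℝ) 10) ∧ (∀ j, bump (τ.2 j).1 (pos y (τ.2 j).2.1) = 1) ∧
    ∀ j j', j ≠ j' → (τ.2 j).1.lab = (τ.2 j').1.lab →
      bump (τ.2 j).1 (pos y (τ.2 j').2.1) = 0}

lemma pos_cont {n : ℕ} (v : Fin n ⊕ Fin 4) : Continuous (fun y : Fin n → ℝ => pos y v) :=
  (pos_contDiff v).continuous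

lemma bump_cont (p : Idx) : Continuous (bump p) := (bump_contDiff p (n := 0)).continuous

lemma Yset_compact (τ : Ty) : IsCompact (Yset τ) := by
  have h1 : IsCompact (Set.pi univ (fun _ : Fin τ.1 => Icc (-10 : ℝ) 10)) :=
    isCompact_univ_pi (fun _ => isCompact_Icc)
  refine h1.of_isClosed_subset ?_ (fun y hy i _ => hy.1 i)
  have e : Yset τ = (⋂ i, {y | y i ∈ Icc (-10 : ℝ) 10}) ∩
      ((⋂ j, {y | bump (τ.2 j).1 (pos y (τ.2 j).2.1) = 1}) ∩
      ⋂ j, ⋂ j', ⋂ (_ : j ≠ j'), ⋂ (_ : (τ.2 j).1.lab = (τ.2 j').1.lab),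
        {y | bump (τ.2 j).1 (pos y (τ.2 j').2.1) = 0}) := by
    ext y
    simp only [Yset, mem_inter_iff, mem_iInter, Set.mem_ofPred_eq]
  rw [e]
  refine IsClosed.inter ?_ (IsClosed.inter ?_ ?_)
  · exact isClosed_iInter (fun i => isClosed_Icc.preimage (continuous_apply i))
  · exact isClosed_iInter (fun j => isClosed_eq ((bump_cont _).comp (pos_cont _)) continuous_const)
  · refine isClosed_iInter (fun j => isClosed_iInter (fun j' => isClosed_iInter (fun _ =>
      isClosed_iInter (fun _ => ?_))))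
    exact isClosed_eq ((bump_cont _).comp (pos_cont _)) continuous_const

/-- the bad parameters -/
def Bad (τ : Ty) : Set Th :=
  {θ | ∃ y ∈ Yset τ, ∀ j, Hm θ (τ.2 j).1.lab (pos y (τ.2 j).2.1) = pos y (τ.2 j).2.2}

lemma Hm_cont2 (i : Bool) : Continuous (fun z : Th × ℝ => Hm z.1 i z.2) := by
  unfold Hm
  exact continuous_snd.add (pert_cont i)

lemma Bad_closed (τ : Ty) : IsClosed (Bad τ) := by
  have h1 : IsCompact ((univ : Set Th) ×ˢ Yset τ) := isCompact_univ.prod (Yset_compact τ)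
  have h2 : IsClosed {z : Th × (Fin τ.1 → ℝ) |
      ∀ j, Hm z.1 (τ.2 j).1.lab (pos z.2 (τ.2 j).2.1) = pos z.2 (τ.2 j).2.2} := by
    have e : {z : Th × (Fin τ.1 → ℝ) |
      ∀ j, Hm z.1 (τ.2 j).1.lab (pos z.2 (τ.2 j).2.1) = pos z.2 (τ.2 j).2.2} =
      ⋂ j, {z | Hm z.1 (τ.2 j).1.lab (pos z.2 (τ.2 j).2.1) = pos z.2 (τ.2 j).2.2} := by
      ext z; simp only [mem_iInter, Set.mem_ofPred_eq]
    rw [e]
    refine isClosed_iInter (fun j => isClosed_eq ?_ ((pos_cont _).comp continuous_snd))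
    have : Continuous (fun z : Th × (Fin τ.1 → ℝ) => (z.1, pos z.2 (τ.2 j).2.1)) :=
      continuous_fst.prodMk ((pos_cont _).comp continuous_snd)
    exact (Hm_cont2 (τ.2 j).1.lab).comp this
  have h3 := (h1.inter_right h2).image continuous_fst
  have e : Bad τ = Prod.fst '' (((univ : Set Th) ×ˢ Yset τ) ∩ {z : Th × (Fin τ.1 → ℝ) |
      ∀ j, Hm z.1 (τ.2 j).1.lab (pos z.2 (τ.2 j).2.1) = pos z.2 (τ.2 j).2.2}) := by
    ext θ
    constructor
    · rintro ⟨y, hy, h⟩
      exact ⟨(θ, y), ⟨⟨mem_univ _, hy⟩, h⟩, rfl⟩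
    · rintro ⟨⟨θ', y⟩, ⟨⟨_, hy⟩, h⟩, rfl⟩
      exact ⟨y, hy, h⟩
  rw [e]
  exact h3.isClosed

open Classical in
/-- replace finitely many coordinates -/
noncomputable def repl {m : ℕ} (k : Fin m → Idx) (θ : Th) (t : Fin m → ℝ) : Th := fun p =>
  if h : ∃ j, k j = p then projIcc (-1 : ℝ) 1 (by norm_num) (t h.choose) else θ p

lemma repl_cont {m : ℕ} (k : Fin m → Idx) (θ : Th) : Continuous (repl k θ) := by
  refine continuous_pi (fun p => ?_)
  unfold repl
  split_ifs with h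
  · exact continuous_projIcc.comp (continuous_apply _)
  · exact continuous_const

lemma repl_self {m : ℕ} (k : Fin m → Idx) (θ : Th) : repl k θ (fun j => (θ (k j) : ℝ)) = θ := by
  ext p
  unfold repl
  split_ifs with h
  · show ((projIcc (-1 : ℝ) 1 _ (θ (k h.choose) : ℝ) : Icc (-1 : ℝ) 1) : ℝ) = θ p
    rw [h.choose_spec, projIcc_val]
  · rfl

lemma repl_apply {m : ℕ} {k : Fin m → Idx} (hk : Function.Injective k) (θ : Th) (t : Fin m → ℝ)
    (j : Fin m) (ht : t j ∈ Icc (-1 : ℝ) 1) : (repl k θ t (k j) : ℝ) = t j := by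
  unfold repl
  have h : ∃ j', k j' = k j := ⟨j, rfl⟩
  rw [dif_pos h]
  have e : h.choose = j := hk h.choose_spec
  rw [e, projIcc_of_mem _ ht]

lemma repl_apply_ne {m : ℕ} {k : Fin m → Idx} (θ : Th) (t s : Fin m → ℝ)
    (p : Idx) (hp : ∀ j, k j ≠ p) : repl k θ t p = repl k θ s p := by
  unfold repl
  have h : ¬ ∃ j', k j' = p := fun ⟨j, hj⟩ => hp j hj
  rw [dif_neg h, dif_neg h]

/-- effect of the replaced coordinates -/
lemma Hm_repl {m : ℕ} {k : Fin m → Idx} (hk : Function.Injective k) (θ : Th) (t : Fin m → ℝ)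
    (j : Fin m) (ht : t j ∈ Icc (-1 : ℝ) 1) (x : ℝ) (hx : bump (k j) x = 1)
    (hx' : ∀ j', j' ≠ j → (k j').lab = (k j).lab → bump (k j') x = 0) :
    Hm (repl k θ t) (k j).lab x = Hm (repl k θ 0) (k j).lab x + t j * (we (k j) / Mb (k j)) := by
  unfold Hm pert
  rw [add_assoc]
  congr 1
  have h1 := tm_summable (repl k θ t) (k j).lab x
  have h2 := tm_summable (repl k θ 0) (k j).lab x
  have h3 : ∑' p, (tm (repl k θ t) (k j).lab p x - tm (repl k θ 0) (k j).lab p x) =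
      t j * (we (k j) / Mb (k j)) := by
    rw [tsum_eq_single (k j)]
    · unfold tm cf
      rw [if_pos rfl, if_pos rfl, hx, repl_apply hk θ t j ht,
        repl_apply hk θ 0 j (by simp)]
      simp
    · intro p hp
      by_cases h : ∃ j', k j' = p
      · obtain ⟨j', rfl⟩ := h
        have hj : j' ≠ j := fun e => hp (by rw [e])
        unfold tm cf
        split_ifs with hl
        · rw [hx' j' hj hl]; simp
        · simp
      · push Not at h
        unfold tm cf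
        rw [repl_apply_ne θ t 0 p h]
        simp
  rw [Summable.tsum_sub h1 h2] at h3
  linarith

lemma Bad_interior (τ : Ty) : ¬ (interior (Bad τ)).Nonempty := by
  rintro ⟨θ0, hθ0⟩
  obtain ⟨n, E⟩ := τ
  set k : Fin (n + 1) → Idx := fun j => (E j).1 with hkdef
  have hk : Function.Injective k := by
    obtain ⟨y, hy, _⟩ := interior_subset hθ0
    intro j j' hjj
    by_contra hne
    have h1 := hy.2.1 j'
    have h2 := hy.2.2 j j' hne (congrArg Idx.lab hjj)
    have h3 : (E j).1 = (E j').1 := hjj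
    simp only at h1 h2
    rw [h3, h1] at h2
    exact one_ne_zero h2
  -- the map F
  set F : (Fin n → ℝ) → (Fin (n + 1) → ℝ) := fun y j =>
    (pos y (E j).2.2 - Hm (repl k θ0 0) (k j).lab (pos y (E j).2.1)) / (we (k j) / Mb (k j))
    with hF
  have hFC : ContDiff ℝ 1 F := by
    rw [contDiff_pi]
    intro j
    have h1 : ContDiff ℝ 2 (fun y : Fin n → ℝ => (pos y (E j).2.2 -
      Hm (repl k θ0 0) (k j).lab (pos y (E j).2.1)) / (we (k j) / Mb (k j))) :=
      ((pos_contDiff _).sub ((Hm_contDiff _ _).comp (pos_contDiff _))).div_const _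
    exact h1.of_le (by norm_num)
  have hdense := hFC.dense_compl_range_of_finrank_lt_finrank (by simp)
  -- open set of parameters
  set U : Set (Fin (n + 1) → ℝ) := (repl k θ0) ⁻¹' (interior (Bad ⟨n, E⟩)) ∩
    Set.pi univ (fun _ => Ioo (-1 : ℝ) 1) with hU
  have hUo : IsOpen U :=
    (isOpen_interior.preimage (repl_cont k θ0)).inter
      (isOpen_set_pi finite_univ (fun _ _ => isOpen_Ioo))
  have hUne : U.Nonempty := by
    set t0 : Fin (n + 1) → ℝ := fun j => (θ0 (k j) : ℝ) with ht0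
    have h1 : (repl k θ0) ⁻¹' (interior (Bad ⟨n, E⟩)) ∈ 𝓝 t0 := by
      apply (isOpen_interior.preimage (repl_cont k θ0)).mem_nhds
      show repl k θ0 t0 ∈ interior (Bad ⟨n, E⟩)
      rw [ht0, repl_self]
      exact hθ0
    have h2 : Tendsto (fun s : ℝ => s • t0) (𝓝[<] 1) (𝓝 t0) := by
      have : Tendsto (fun s : ℝ => s • t0) (𝓝 1) (𝓝 ((1 : ℝ) • t0)) :=
        (continuous_id.smul continuous_const).tendsto 1
      rw [one_smul] at this
      exact this.mono_left nhdsWithin_le_nhds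
    have h3 := h2.eventually h1
    have h4 : ∀ᶠ s : ℝ in 𝓝[<] 1, s ∈ Ioo (0 : ℝ) 1 := Ioo_mem_nhdsLT (by norm_num)
    obtain ⟨s, hs, hs'⟩ := (h3.and h4).exists
    refine ⟨s • t0, hs, ?_⟩
    intro j _
    have h5 := (θ0 (k j)).2
    have h6 : (s • t0) j = s * (θ0 (k j) : ℝ) := rfl
    rw [h6]
    constructor
    · nlinarith [h5.1, h5.2, hs'.1, hs'.2]
    · nlinarith [h5.1, h5.2, hs'.1, hs'.2]
  obtain ⟨t, htU, htF⟩ := hdense.inter_open_nonempty U hUo hUne
  apply htF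
  obtain ⟨y, hy, hyeq⟩ := interior_subset htU.1
  refine ⟨y, ?_⟩
  ext j
  have htj : t j ∈ Icc (-1 : ℝ) 1 := Ioo_subset_Icc_self (htU.2 j (mem_univ _))
  have h1 := hyeq j
  have h2 := Hm_repl hk θ0 t j htj (pos y (E j).2.1) (hy.2.1 j)
    (fun j' hj' hl => hy.2.2 j' j hj' hl)
  have h3 : Hm (repl k θ0 t) (k j).lab (pos y (E j).2.1) = pos y (E j).2.2 := h1
  rw [h3] at h2
  have hpos : 0 < we (k j) / Mb (k j) := div_pos (we_pos _) (lt_of_lt_of_le one_pos (Mb_one _))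
  rw [hF]
  simp only
  rw [div_eq_iff hpos.ne']
  linarith

theorem exists_good : ∃ θ : Th, ∀ τ, θ ∉ Bad τ := by
  by_contra hcon
  have : Nonempty Th := ⟨fun _ => ⟨0, by norm_num⟩⟩
  push Not at hcon
  have h1 : (⋃ τ, Bad τ) = univ := by
    ext θ
    simp only [mem_iUnion, mem_univ, iff_true]
    exact hcon θ
  obtain ⟨τ, hτ⟩ := nonempty_interior_of_iUnion_of_closed (fun τ => Bad_closed τ) h1
  exact Bad_interior τ hτ

end Pool.Agent.H77.NF
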