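import Mathlib

set_option autoImplicit false
open Filter Topology

namespace Pool.Agent.H77.NF

/-- Two homeomorphisms of the line, closed sets `K i` outside of which `h i` is the identity, and an
injective choice of an endpoint for each edge `y -- h i y`, `y ∈ K i`. -/
structure OwnData where
  h : Bool → Equiv.Perm ℝ
  K : Bool → Set ℝ
  hK : ∀ i, IsClosed (K i)
  out : ∀ i y, y ∉ K i → h i y = y
  cont : ∀ i, Continuous (h i)
  cont' : ∀ i, Continuous (h i).symm
  own : {p : Bool × ℝ // p.2 ∈ K p.1} → ℝ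
  inj : Function.Injective own
  mem : ∀ p, own p = p.1.2 ∨ own p = h p.1.1 p.1.2

namespace OwnData

variable (D : OwnData)

/-- the group -/
def G : Subgroup (Equiv.Perm ℝ) := Subgroup.closure (Set.range D.h)

lemma h_mem (i : Bool) : D.h i ∈ D.G := Subgroup.subset_closure ⟨i, rfl⟩

open Classical in
/-- the element which the owner `y` applies -/
noncomputable def σ (y : ℝ) : Equiv.Perm ℝ :=
  if H : ∃ p, D.own p = y then
    if H.choose.1.2 = y then D.h H.choose.1.1 else (D.h H.choose.1.1)⁻¹
  else 1

lemma σ_src (p : {p : Bool × ℝ // p.2 ∈ D.K p.1}) (hp : D.own p = p.1.2) :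
    D.σ p.1.2 = D.h p.1.1 := by
  have H : ∃ p', D.own p' = p.1.2 := ⟨p, hp⟩
  have e : H.choose = p := D.inj (H.choose_spec.trans hp.symm)
  unfold σ
  rw [dif_pos H, e, if_pos rfl]

lemma σ_tgt (p : {p : Bool × ℝ // p.2 ∈ D.K p.1}) (hp : D.own p = D.h p.1.1 p.1.2)
    (hne : p.1.2 ≠ D.h p.1.1 p.1.2) :
    D.σ (D.h p.1.1 p.1.2) = (D.h p.1.1)⁻¹ := by
  have H : ∃ p', D.own p' = D.h p.1.1 p.1.2 := ⟨p, hp⟩
  have e : H.choose = p := D.inj (H.choose_spec.trans hp.symm)
  unfold σ
  rw [dif_pos H, e, if_neg hne]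

lemma σ_mem (y : ℝ) : D.σ y ∈ D.G := by
  unfold σ
  split_ifs
  · exact D.h_mem _
  · exact inv_mem (D.h_mem _)
  · exact one_mem _

/-- composite of `a` steps -/
noncomputable def N : ℕ → ℝ → Equiv.Perm ℝ
  | 0, _ => 1
  | a + 1, q => N a (D.σ q q) * D.σ q

lemma N_zero (q : ℝ) : D.N 0 q = 1 := rfl

lemma N_succ (a : ℕ) (q : ℝ) : D.N (a + 1) q = D.N a (D.σ q q) * D.σ q := rfl

lemma N_mem (a : ℕ) (q : ℝ) : D.N a q ∈ D.G := by
  induction a generalizing q with
  | zero => exact one_mem _
  | succ a ih => exact mul_mem (ih _) (D.σ_mem _)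

lemma N_add (a b : ℕ) (q : ℝ) : D.N (a + b) q = D.N a (D.N b q q) * D.N b q := by
  induction b generalizing q with
  | zero => simp [N_zero]
  | succ b ih =>
    rw [← add_assoc, N_succ, ih, N_succ]
    simp [mul_assoc, Equiv.Perm.mul_apply]

lemma N_one (q : ℝ) : D.N 1 q = D.σ q := by
  rw [show (1 : ℕ) = 0 + 1 from rfl, N_succ, N_zero, one_mul]

lemma N_succ' (a : ℕ) (q : ℝ) : D.N (a + 1) q = D.σ (D.N a q q) * D.N a q := by
  rw [add_comm, N_add, N_one]

lemma cont_mem {f : Equiv.Perm ℝ} (hf : f ∈ D.G) : Continuous f ∧ Continuous f.symm := by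
  refine Subgroup.closure_induction (p := fun (g : Equiv.Perm ℝ) _ => Continuous g ∧ Continuous g.symm)
    ?_ ?_ ?_ ?_ hf
  · rintro _ ⟨i, rfl⟩
    exact ⟨D.cont i, D.cont' i⟩
  · exact ⟨continuous_id, continuous_id⟩
  · rintro x y _ _ ⟨hx, hx'⟩ ⟨hy, hy'⟩
    exact ⟨hx.comp hy, hy'.comp hx'⟩
  · rintro x _ ⟨hx, hx'⟩
    exact ⟨hx', hx⟩

lemma tendsto_mem {f : Equiv.Perm ℝ} (hf : f ∈ D.G) (q : ℝ) : Tendsto f (𝓝 q) (𝓝 (f q)) :=
  (D.cont_mem hf).1.tendsto q

/-- Key lemma: germs of elements are described by the ownership dynamics. -/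
lemma key {f : Equiv.Perm ℝ} (hf : f ∈ D.G) (q : ℝ) :
    ∃ a b : ℕ, ∀ᶠ x in 𝓝 q, D.N b (f q) (f x) = D.N a q x := by
  refine Subgroup.closure_induction_left (p := fun f _ => ∃ a b : ℕ, ∀ᶠ x in 𝓝 q,
    D.N b (f q) (f x) = D.N a q x) ?_ ?_ ?_ hf
  · exact ⟨0, 0, by simp [N_zero]⟩
  · -- s = h i
    rintro _ ⟨i, rfl⟩ f hf ⟨a, b, hab⟩
    by_cases hy : f q ∈ D.K i
    · set p : {p : Bool × ℝ // p.2 ∈ D.K p.1} := ⟨(i, f q), hy⟩ with hp
      rcases D.mem p with h1 | h1
      · have hσ : D.σ (f q) = D.h i := D.σ_src p h1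
        cases b with
        | zero =>
          refine ⟨a + 1, 0, ?_⟩
          have e0 := hab.self_of_nhds
          filter_upwards [hab] with x hx
          simp only [N_zero, Equiv.Perm.one_apply] at hx e0
          rw [N_zero, N_succ', ← e0, hσ]
          simp only [Equiv.Perm.mul_apply, Equiv.Perm.one_apply]
          rw [hx]
        | succ b =>
          refine ⟨a, b, ?_⟩
          filter_upwards [hab] with x hx
          rw [← hx, N_succ, hσ]
          simp only [Equiv.Perm.mul_apply]
      · by_cases hne : f q = D.h i (f q)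
        · -- loop: own p = f q as well
          have h2 : D.own p = p.1.2 := h1.trans hne.symm
          have hσ : D.σ (f q) = D.h i := D.σ_src p h2
          cases b with
          | zero =>
            refine ⟨a + 1, 0, ?_⟩
            have e0 := hab.self_of_nhds
            filter_upwards [hab] with x hx
            simp only [N_zero, Equiv.Perm.one_apply] at hx e0
            rw [N_zero, N_succ', ← e0, hσ]
            simp only [Equiv.Perm.mul_apply, Equiv.Perm.one_apply]
            rw [hx]
          | succ b =>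
            refine ⟨a, b, ?_⟩
            filter_upwards [hab] with x hx
            rw [← hx, N_succ, hσ]
            simp only [Equiv.Perm.mul_apply]
        · have hσ : D.σ (D.h i (f q)) = (D.h i)⁻¹ := D.σ_tgt p h1 hne
          refine ⟨a, b + 1, ?_⟩
          filter_upwards [hab] with x hx
          rw [← hx]
          simp only [Equiv.Perm.mul_apply]
          rw [N_succ, hσ]
          simp [Equiv.Perm.mul_apply]
    · refine ⟨a, b, ?_⟩
      have hout : ∀ᶠ z in 𝓝 (f q), D.h i z = z := by
        filter_upwards [(D.hK i).isOpen_compl.mem_nhds hy] with z hz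
        exact D.out i z hz
      have h2 := (D.tendsto_mem hf q).eventually hout
      filter_upwards [hab, h2] with x hx h2x
      simp only [Equiv.Perm.mul_apply]
      rw [D.out i (f q) hy, h2x, hx]
  · -- s = (h i)⁻¹
    rintro _ ⟨i, rfl⟩ f hf ⟨a, b, hab⟩
    by_cases hy : (D.h i)⁻¹ (f q) ∈ D.K i
    · set y' := (D.h i)⁻¹ (f q) with hy'
      have hyy : D.h i y' = f q := by rw [hy']; simp
      set p : {p : Bool × ℝ // p.2 ∈ D.K p.1} := ⟨(i, y'), hy⟩ with hp
      rcases D.mem p with h1 | h1
      · have hσ : D.σ y' = D.h i := D.σ_src p h1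
        refine ⟨a, b + 1, ?_⟩
        filter_upwards [hab] with x hx
        rw [← hx]
        simp only [Equiv.Perm.mul_apply]
        rw [← hy', N_succ, hσ, hyy]
        simp [Equiv.Perm.mul_apply]
      · by_cases hne : y' = D.h i y'
        · have h2 : D.own p = p.1.2 := h1.trans hne.symm
          have hσ : D.σ y' = D.h i := D.σ_src p h2
          refine ⟨a, b + 1, ?_⟩
          filter_upwards [hab] with x hx
          rw [← hx]
          simp only [Equiv.Perm.mul_apply]
          rw [← hy', N_succ, hσ, hyy]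
          simp [Equiv.Perm.mul_apply]
        · have hσ : D.σ (f q) = (D.h i)⁻¹ := by
            have := D.σ_tgt p h1 hne
            rw [← hyy]; exact this
          cases b with
          | zero =>
            refine ⟨a + 1, 0, ?_⟩
            have e0 := hab.self_of_nhds
            filter_upwards [hab] with x hx
            simp only [N_zero, Equiv.Perm.one_apply] at hx e0
            rw [N_zero, N_succ', ← e0, hσ]
            simp only [Equiv.Perm.mul_apply, Equiv.Perm.one_apply]
            rw [hx]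
          | succ b =>
            refine ⟨a, b, ?_⟩
            filter_upwards [hab] with x hx
            rw [← hx, N_succ, hσ]
            simp only [Equiv.Perm.mul_apply]
    · refine ⟨a, b, ?_⟩
      have hfq : (D.h i)⁻¹ (f q) = f q := by
        have := D.out i _ hy
        simpa using this.symm
      have hy2 : f q ∉ D.K i := by rw [hfq] at hy; exact hy
      have hout : ∀ᶠ z in 𝓝 (f q), (D.h i)⁻¹ z = z := by
        filter_upwards [(D.hK i).isOpen_compl.mem_nhds hy2] with z hz
        rw [Equiv.Perm.inv_eq_iff_eq]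
        exact (D.out i z hz).symm
      have h2 := (D.tendsto_mem hf q).eventually hout
      filter_upwards [hab, h2] with x hx h2x
      simp only [Equiv.Perm.mul_apply]
      rw [hfq, h2x, hx]

/-- Germs of the stabiliser of a point commute. -/
theorem commute_germs {f g : Equiv.Perm ℝ} (hf : f ∈ D.G) (hg : g ∈ D.G) (q : ℝ)
    (hfq : f q = q) (hgq : g q = q) : ∀ᶠ x in 𝓝 q, f (g x) = g (f x) := by
  obtain ⟨a, b, hab⟩ := D.key hf q
  obtain ⟨c, d, hcd⟩ := D.key hg q
  rw [hfq] at hab
  rw [hgq] at hcd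
  have e1 : D.N b q q = D.N a q q := by have := hab.self_of_nhds; rwa [hfq] at this
  have e2 : D.N d q q = D.N c q q := by have := hcd.self_of_nhds; rwa [hgq] at this
  have tf : Tendsto f (𝓝 q) (𝓝 q) := by have := D.tendsto_mem hf q; rwa [hfq] at this
  have tg : Tendsto g (𝓝 q) (𝓝 q) := by have := D.tendsto_mem hg q; rwa [hgq] at this
  have habg := tg.eventually hab
  have hcdf := tf.eventually hcd
  filter_upwards [hab, hcd, habg, hcdf] with x h1 h2 h3 h4
  have A : D.N (d + b) q (f (g x)) = D.N (c + a) q x := by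
    rw [N_add]
    simp only [Equiv.Perm.mul_apply]
    rw [h3]
    -- N d (N b q q) (N a q (g x))
    rw [e1]
    have : D.N d (D.N a q q) (D.N a q (g x)) = D.N (d + a) q (g x) := by
      rw [N_add]; rfl
    rw [this, add_comm d a, N_add]
    simp only [Equiv.Perm.mul_apply]
    rw [h2, e2]
    have : D.N a (D.N c q q) (D.N c q x) = D.N (a + c) q x := by
      rw [N_add]; rfl
    rw [this, add_comm a c]
  have B : D.N (d + b) q (g (f x)) = D.N (c + a) q x := by
    rw [add_comm d b, N_add]
    simp only [Equiv.Perm.mul_apply]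
    rw [h4, e2]
    have : D.N b (D.N c q q) (D.N c q (f x)) = D.N (b + c) q (f x) := by
      rw [N_add]; rfl
    rw [this, add_comm b c, N_add]
    simp only [Equiv.Perm.mul_apply]
    rw [h1, e1]
    have : D.N c (D.N a q q) (D.N a q x) = D.N (c + a) q x := by
      rw [N_add]; rfl
    rw [this]
  exact (D.N (d + b) q).injective (A.trans B.symm)

end OwnData

end Pool.Agent.H77.NF
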