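import Mathlib
import Pool.Agent.H77.NF.Generic
import Pool.Agent.H77.NF.Germ

set_option autoImplicit false
open Filter Topology Set

namespace Pool.Agent.H77.NF

/-- closed supports -/
def Kc (i : Bool) : Set ℝ := Icc (lo i) (hi i)

lemma exists_bump (i : Bool) {v : ℝ} (hv : v ∈ Ioo (lo i) (hi i)) (W : Finset ℝ) (hW : v ∉ W) :
    ∃ p : Idx, p.lab = i ∧ bump p v = 1 ∧ ∀ w ∈ W, bump p w = 0 := by
  have hU : IsOpen (Ioo (lo i) (hi i) ∩ (W : Set ℝ)ᶜ) :=
    isOpen_Ioo.inter W.finite_toSet.isClosed.isOpen_compl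
  obtain ⟨δ, hδ, hball⟩ := Metric.isOpen_iff.1 hU v ⟨hv, by simpa using hW⟩
  obtain ⟨r', hr1, hr2⟩ := exists_rat_btwn (show v - δ < v - δ / 2 by linarith)
  obtain ⟨r, hr3, hr4⟩ := exists_rat_btwn (show v - δ / 2 < v by linarith)
  obtain ⟨s, hs1, hs2⟩ := exists_rat_btwn (show v < v + δ / 2 by linarith)
  obtain ⟨s', hs3, hs4⟩ := exists_rat_btwn (show v + δ / 2 < v + δ by linarith)
  have hb : ∀ x : ℝ, v - δ < x → x < v + δ → x ∈ Ioo (lo i) (hi i) ∩ (W : Set ℝ)ᶜ := by
    intro x h1 h2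
    apply hball
    rw [Metric.mem_ball, Real.dist_eq, abs_lt]
    constructor <;> linarith
  have h1 := (hb r' hr1 (by linarith)).1.1
  have h2 := (hb s' (by linarith) hs4).1.2
  refine ⟨⟨(i, r', r, s, s'), h1, ?_, ?_, ?_, h2⟩, rfl, ?_, ?_⟩
  · show (r' : ℝ) < r
    linarith
  · show (r : ℝ) < s
    linarith
  · show (s : ℝ) < s'
    linarith
  · apply bump_one
    · show (r : ℝ) ≤ v
      linarith
    · show v ≤ (s : ℝ)
      linarith
  · intro w hw
    apply bump_zero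
    show w ≤ (r' : ℝ) ∨ (s' : ℝ) ≤ w
    by_contra hcon
    push Not at hcon
    exact (hb w (by linarith [hcon.1]) (by linarith [hcon.2])).2 (by simpa using hw)

lemma end_cases {i : Bool} {y : ℝ} (h : y ∈ Kc i) (h' : y ∉ Ioo (lo i) (hi i)) :
    (i = true ∧ (y = 0 ∨ y = 2)) ∨ (i = false ∧ (y = 1 ∨ y = 3)) := by
  have h1 : y = lo i ∨ y = hi i := by
    by_contra hcon
    push Not at hcon
    exact h' ⟨lt_of_le_of_ne h.1 (Ne.symm hcon.1), lt_of_le_of_ne h.2 hcon.2⟩
  cases i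
  · right
    exact ⟨rfl, by simpa [lo, hi] using h1⟩
  · left
    exact ⟨rfl, by simpa [lo, hi] using h1⟩

theorem hall_cond {θ : Th} (hθ : ∀ τ, θ ∉ Bad τ) (E : Finset {p : Bool × ℝ // p.2 ∈ Kc p.1}) :
    E.card ≤ (E.biUnion (fun p => ({p.1.2, Hm θ p.1.1 p.1.2} : Finset ℝ))).card := by
  classical
  by_contra hlt
  push Not at hlt
  set V : Finset ℝ := E.biUnion (fun p => ({p.1.2, Hm θ p.1.1 p.1.2} : Finset ℝ)) with hV
  set P : Finset ℝ := {0, 1, 2, 3} with hP
  set N : Finset ℝ := V.filter (fun v => v ∉ P) with hN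
  set Es := E.filter (fun p => p.1.2 ∈ Ioo (lo p.1.1) (hi p.1.1)) with hEs
  have hsrc : ∀ p ∈ E, p.1.2 ∈ V := fun p hp =>
    Finset.mem_biUnion.2 ⟨p, hp, Finset.mem_insert_self _ _⟩
  have htgt : ∀ p ∈ E, Hm θ p.1.1 p.1.2 ∈ V := fun p hp =>
    Finset.mem_biUnion.2 ⟨p, hp, Finset.mem_insert_of_mem (Finset.mem_singleton_self _)⟩
  have hc1 : (E.filter (fun p => ¬ p.1.2 ∈ Ioo (lo p.1.1) (hi p.1.1))).card ≤
      (V.filter (fun v => v ∈ P)).card := by
    apply Finset.card_le_card_of_injOn (fun p => p.1.2)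
    · intro p hp
      have hp := Finset.mem_filter.1 (Finset.mem_coe.1 hp)
      refine Finset.mem_coe.2 (Finset.mem_filter.2 ⟨hsrc p hp.1, ?_⟩)
      rcases end_cases p.2 hp.2 with ⟨_, h | h⟩ | ⟨_, h | h⟩ <;> simp only [h, hP] <;> simp
    · intro p hp q hq hpq
      have hp := Finset.mem_filter.1 (Finset.mem_coe.1 hp)
      have hq := Finset.mem_filter.1 (Finset.mem_coe.1 hq)
      simp only at hpq
      apply Subtype.ext
      apply Prod.ext _ hpq
      rcases end_cases p.2 hp.2 with ⟨hi1, h⟩ | ⟨hi1, h⟩ <;>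
      rcases end_cases q.2 hq.2 with ⟨hi2, h'⟩ | ⟨hi2, h'⟩
      · rw [hi1, hi2]
      · exfalso
        rw [← hpq] at h'
        rcases h with h | h <;> rcases h' with h' | h' <;> rw [h] at h' <;> norm_num at h'
      · exfalso
        rw [← hpq] at h'
        rcases h with h | h <;> rcases h' with h' | h' <;> rw [h] at h' <;> norm_num at h'
      · rw [hi1, hi2]
  have hc2 : Es.card + (E.filter (fun p => ¬ p.1.2 ∈ Ioo (lo p.1.1) (hi p.1.1))).card = E.card :=
    Finset.card_filter_add_card_filter_not _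
  have hc3 : (V.filter (fun v => v ∈ P)).card + N.card = V.card :=
    Finset.card_filter_add_card_filter_not _
  have hc4 : N.card + 1 ≤ Es.card := by omega
  obtain ⟨E1, hE1, hE1c⟩ := Finset.exists_subset_card_eq hc4
  set n := N.card with hn
  let eE : Fin (n + 1) ≃ E1 := (E1.equivFinOfCardEq hE1c).symm
  let eN : Fin n ≃ N := N.equivFin.symm
  set y : Fin n → ℝ := fun a => (eN a : ℝ) with hy
  have hcode : ∀ v : ℝ, ∃ c : Fin n ⊕ Fin 4, v ∈ V → pos y c = v := by
    intro v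
    by_cases hvV : v ∈ V
    · by_cases hvP : v ∈ P
      · rw [hP] at hvP
        simp only [Finset.mem_insert, Finset.mem_singleton] at hvP
        rcases hvP with h | h | h | h
        · exact ⟨Sum.inr 0, fun _ => by rw [h]; simp [pos, sp]⟩
        · exact ⟨Sum.inr 1, fun _ => by rw [h]; simp [pos, sp]⟩
        · exact ⟨Sum.inr 2, fun _ => by rw [h]; simp [pos, sp]⟩
        · exact ⟨Sum.inr 3, fun _ => by rw [h]; simp [pos, sp]⟩
      · have hvN : v ∈ N := Finset.mem_filter.2 ⟨hvV, hvP⟩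
        refine ⟨Sum.inl (eN.symm ⟨v, hvN⟩), fun _ => ?_⟩
        simp [pos, hy]
    · exact ⟨Sum.inr 0, fun h => absurd h hvV⟩
  choose code hcode using hcode
  have hbump : ∀ j : Fin (n + 1), ∃ p : Idx, p.lab = (eE j).1.1.1 ∧ bump p (eE j).1.1.2 = 1 ∧
      ∀ w ∈ V.erase (eE j).1.1.2, bump p w = 0 := by
    intro j
    have h1 := (Finset.mem_filter.1 (hE1 (eE j).2)).2
    exact exists_bump _ h1 _ (by simp)
  choose k hk1 hk2 hk3 using hbump
  have hmE : ∀ j, (eE j).1 ∈ E := fun j => (Finset.mem_filter.1 (hE1 (eE j).2)).1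
  apply hθ ⟨n, fun j => (k j, code (eE j).1.1.2, code (Hm θ (eE j).1.1.1 (eE j).1.1.2))⟩
  refine ⟨y, ⟨?_, ?_, ?_⟩, ?_⟩
  · intro a
    have h1 : (eN a : ℝ) ∈ V := (Finset.mem_filter.1 (eN a).2).1
    obtain ⟨p, hp, hpv⟩ := Finset.mem_biUnion.1 h1
    have hK : p.1.2 ∈ Kc p.1.1 := p.2
    have hK' : 0 ≤ p.1.2 ∧ p.1.2 ≤ 3 := by
      unfold Kc at hK
      rcases h : p.1.1 with _ | _ <;> rw [h] at hK <;> simp [lo, hi] at hK <;>
        constructor <;> linarith [hK.1, hK.2]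
    have hd := abs_le.1 (Hm_disp θ p.1.1 p.1.2)
    show (eN a : ℝ) ∈ Icc (-10 : ℝ) 10
    rcases Finset.mem_insert.1 hpv with h | h
    · rw [h]; constructor <;> linarith [hK'.1, hK'.2]
    · rw [Finset.mem_singleton.1 h]; constructor <;> linarith [hK'.1, hK'.2, hd.1, hd.2]
  · intro j
    show bump (k j) (pos y (code (eE j).1.1.2)) = 1
    rw [hcode _ (hsrc _ (hmE j)), hk2]
  · intro j j' hjj hl
    show bump (k j) (pos y (code (eE j').1.1.2)) = 0
    have hl' : (k j).lab = (k j').lab := hl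
    rw [hcode _ (hsrc _ (hmE j'))]
    apply hk3
    refine Finset.mem_erase.2 ⟨?_, hsrc _ (hmE j')⟩
    intro h
    apply hjj
    apply eE.injective
    apply Subtype.ext
    apply Subtype.ext
    apply Prod.ext
    · rw [← hk1 j, ← hk1 j', hl']
    · exact h.symm
  · intro j
    show Hm θ (k j).lab (pos y (code (eE j).1.1.2)) =
      pos y (code (Hm θ (eE j).1.1.1 (eE j).1.1.2))
    rw [hcode _ (hsrc _ (hmE j)), hcode _ (htgt _ (hmE j)), hk1]

/-- The ownership data. -/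
theorem exists_data : ∃ D : OwnData, (∀ i, D.K i = Kc i) ∧ ∃ θ : Th, ∀ i, D.h i = (Hh θ i).toEquiv := by
  classical
  obtain ⟨θ, hθ⟩ := exists_good
  obtain ⟨own, hinj, hmem⟩ := (Finset.all_card_le_biUnion_card_iff_exists_injective
    (fun p : {p : Bool × ℝ // p.2 ∈ Kc p.1} => ({p.1.2, Hm θ p.1.1 p.1.2} : Finset ℝ))).1
    (hall_cond hθ)
  refine ⟨{ h := fun i => (Hh θ i).toEquiv
            K := Kc
            hK := fun i => isClosed_Icc
            out := ?_
            cont := fun i => (Hh θ i).continuous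
            cont' := fun i => (Hh θ i).symm.continuous
            own := own
            inj := hinj
            mem := ?_ }, fun _ => rfl, θ, fun _ => rfl⟩
  · intro i y hy
    exact Hm_out θ i (fun h => hy (Ioo_subset_Icc_self h))
  · intro p
    have := hmem p
    rw [Finset.mem_insert, Finset.mem_singleton] at this
    exact this

end Pool.Agent.H77.NF
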