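import Mathlib

set_option autoImplicit false
open scoped Pointwise

namespace Pool.Agent.H77.NF

section mean

variable {X : Type*} {m : Set X → ℝ}

lemma mean_empty (hadd : ∀ A B : Set X, Disjoint A B → m (A ∪ B) = m A + m B) : m ∅ = 0 := by
  have := hadd ∅ ∅ (by simp)
  simp at this
  exact this

lemma mean_biUnion (hadd : ∀ A B : Set X, Disjoint A B → m (A ∪ B) = m A + m B)
    {ι : Type*} (I : Finset ι) (A : ι → Set X)
    (hd : ∀ i ∈ I, ∀ j ∈ I, i ≠ j → Disjoint (A i) (A j)) :
    m (⋃ i ∈ I, A i) = ∑ i ∈ I, m (A i) := by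
  classical
  induction I using Finset.induction_on with
  | empty => simp [mean_empty hadd]
  | insert i I hi ih =>
    rw [Finset.set_biUnion_insert, Finset.sum_insert hi, hadd, ih]
    · intro a ha b hb hab
      exact hd a (Finset.mem_insert_of_mem ha) b (Finset.mem_insert_of_mem hb) hab
    · rw [Set.disjoint_iUnion₂_right]
      intro j hj
      exact hd i (Finset.mem_insert_self _ _) j (Finset.mem_insert_of_mem hj)
        (fun h => hi (h ▸ hj))

lemma mean_mono (hpos : ∀ A : Set X, 0 ≤ m A)
    (hadd : ∀ A B : Set X, Disjoint A B → m (A ∪ B) = m A + m B) {A B : Set X} (h : A ⊆ B) :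
    m A ≤ m B := by
  have h1 := hadd A (B \ A) Set.disjoint_sdiff_right
  rw [Set.union_sdiff_self, Set.union_eq_self_of_subset_left h] at h1
  linarith [hpos (B \ A)]

end mean

/-- A group in which every finite set has small intersection with its translates by two elements
has no invariant mean. -/
theorem no_mean {G : Type*} [Group G] [DecidableEq G] (a b : G)
    (hiso : ∀ F : Finset G, 25 * ((F.filter (fun g => a * g ∈ F)).card +
      (F.filter (fun g => b * g ∈ F)).card) ≤ 26 * F.card) :
    ¬ ∃ m : Set G → ℝ, (∀ A : Set G, 0 ≤ m A) ∧ m Set.univ = 1 ∧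
      (∀ A B : Set G, Disjoint A B → m (A ∪ B) = m A + m B) ∧
      (∀ (g : G) (A : Set G), m ((fun x => g * x) ⁻¹' A) = m A) := by
  rintro ⟨m, hpos, h1, hadd, hinv⟩
  set S : Finset G := {1, a⁻¹, b⁻¹} with hS
  have hexp : ∀ F : Finset G, 74 * F.card ≤ 50 * (S * F).card := by
    intro F
    have key : ∀ c : G, c⁻¹ ∈ S → 2 * F.card ≤ (S * F).card +
        (F.filter (fun g => c * g ∈ F)).card := by
      intro c hc
      have h2 : F ∪ F.image (fun x => c⁻¹ * x) ⊆ S * F := by
        intro x hx
        rcases Finset.mem_union.1 hx with h | h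
        · exact Finset.mem_mul.2 ⟨1, by simp [hS], x, h, one_mul x⟩
        · obtain ⟨y, hy, rfl⟩ := Finset.mem_image.1 h
          exact Finset.mul_mem_mul hc hy
      have h3 := Finset.card_union_add_card_inter F (F.image (fun x => c⁻¹ * x))
      have h4 : (F.image (fun x => c⁻¹ * x)).card = F.card :=
        Finset.card_image_of_injective _ (mul_right_injective c⁻¹)
      have h5 : F ∩ F.image (fun x => c⁻¹ * x) ⊆ F.filter (fun g => c * g ∈ F) := by
        intro x hx
        obtain ⟨hx1, hx2⟩ := Finset.mem_inter.1 hx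
        obtain ⟨y, hy, rfl⟩ := Finset.mem_image.1 hx2
        refine Finset.mem_filter.2 ⟨hx1, ?_⟩
        simpa using hy
      have h6 := Finset.card_le_card h5
      have h7 := Finset.card_le_card h2
      omega
    have ka := key a (by simp [hS])
    have kb := key b (by simp [hS])
    have hF := hiso F
    omega
  set T : Finset G := S * S with hT
  have hexp2 : ∀ F : Finset G, 2 * F.card ≤ (T * F).card := by
    intro F
    have e1 := hexp F
    have e2 := hexp (S * F)
    rw [hT, mul_assoc]
    omega
  have hall := (Finset.all_card_le_biUnion_card_iff_exists_injective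
    (fun p : G × Bool => T * {p.1})).1 (by
      intro A
      have hA : A.card ≤ 2 * (A.image Prod.fst).card := by
        have : A ⊆ (A.image Prod.fst) ×ˢ (Finset.univ : Finset Bool) := by
          intro p hp
          exact Finset.mem_product.2 ⟨Finset.mem_image_of_mem _ hp, Finset.mem_univ _⟩
        have := Finset.card_le_card this
        rw [Finset.card_product, Finset.card_univ, Fintype.card_bool] at this
        omega
      have hB : T * (A.image Prod.fst) ⊆ A.biUnion (fun p : G × Bool => T * {p.1}) := by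
        intro x hx
        obtain ⟨s, hs, g, hg, rfl⟩ := Finset.mem_mul.1 hx
        obtain ⟨p, hp, rfl⟩ := Finset.mem_image.1 hg
        exact Finset.mem_biUnion.2 ⟨p, hp, Finset.mul_mem_mul hs (Finset.mem_singleton_self _)⟩
      exact hA.trans ((hexp2 _).trans (Finset.card_le_card hB)))
  obtain ⟨φ, hφ, hφT⟩ := hall
  have hs : ∀ p : G × Bool, ∃ s ∈ T, φ p = s * p.1 := by
    intro p
    obtain ⟨s, hs, g, hg, h⟩ := Finset.mem_mul.1 (hφT p)
    rw [Finset.mem_singleton] at hg
    exact ⟨s, hs, by rw [← h, hg]⟩
  let A : Bool × G → Set G := fun q => {g | φ (g, q.1) = q.2 * g}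
  let B : Bool × G → Set G := fun q => (fun x => q.2⁻¹ * x) ⁻¹' (A q)
  have hAB : ∀ q, m (B q) = m (A q) := fun q => hinv _ _
  have hsumA : ∀ c : Bool, ∑ s ∈ T, m (A (c, s)) = 1 := by
    intro c
    rw [← mean_biUnion hadd T (fun s => A (c, s)), ← h1]
    · congr 1
      ext g
      simp only [Set.mem_iUnion, Set.mem_univ, iff_true]
      obtain ⟨s, hs, h⟩ := hs (g, c)
      exact ⟨s, hs, h⟩
    · intro s _ t _ hst
      rw [Set.disjoint_left]
      intro g hg1 hg2
      have e1 : φ (g, c) = s * g := hg1
      have e2 : φ (g, c) = t * g := hg2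
      exact hst (mul_right_cancel (e1.symm.trans e2))
  have hsumB : ∑ q ∈ (Finset.univ : Finset Bool) ×ˢ T, m (B q) ≤ 1 := by
    rw [← mean_biUnion hadd, ← h1]
    · exact mean_mono hpos hadd (Set.subset_univ _)
    · intro p _ q _ hpq
      rw [Set.disjoint_left]
      intro x hx1 hx2
      have e1 : φ (p.2⁻¹ * x, p.1) = p.2 * (p.2⁻¹ * x) := hx1
      have e2 : φ (q.2⁻¹ * x, q.1) = q.2 * (q.2⁻¹ * x) := hx2
      rw [mul_inv_cancel_left] at e1 e2
      have e3 := hφ (e1.trans e2.symm)
      have e4 := congrArg Prod.fst e3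
      have e5 := congrArg Prod.snd e3
      simp only at e4 e5
      have e6 := mul_right_cancel e4
      apply hpq
      exact Prod.ext e5 (inv_injective e6)
  rw [Finset.sum_product] at hsumB
  simp only [hAB, hsumA] at hsumB
  simp at hsumB

end Pool.Agent.H77.NF
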