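import Mathlib
import Pool.Agent.H77.NF.Germ
import Pool.Agent.H77.NF.Mean

set_option autoImplicit false
open MeasureTheory
open scoped ENNReal

namespace Pool.Agent.H77.NF

namespace OwnData

variable (D : OwnData)

open Classical in
/-- total version of the ownership function -/
noncomputable def own' (i : Bool) (y : ℝ) : ℝ :=
  if h : y ∈ D.K i then D.own ⟨(i, y), h⟩ else 0

lemma own'_mem {i : Bool} {y : ℝ} (h : y ∈ D.K i) : D.own' i y = y ∨ D.own' i y = D.h i y := by
  unfold own'
  rw [dif_pos h]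
  exact D.mem ⟨(i, y), h⟩

lemma own'_inj {i j : Bool} {y z : ℝ} (h : y ∈ D.K i) (h' : z ∈ D.K j)
    (e : D.own' i y = D.own' j z) : i = j ∧ y = z := by
  unfold own' at e
  rw [dif_pos h, dif_pos h'] at e
  have := D.inj e
  have := congrArg Subtype.val this
  exact ⟨congrArg Prod.fst this, congrArg Prod.snd this⟩

end OwnData

/-- the weight -/
noncomputable def Wt (g : Equiv.Perm ℝ) (x : ℝ) : ℝ≥0∞ :=
  ENNReal.ofReal (deriv g x) * (Set.Ioo (1 : ℝ) 2).indicator 1 (g x)

/-- the lower weight -/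
noncomputable def Vt (g : Equiv.Perm ℝ) (x : ℝ) : ℝ≥0∞ :=
  ENNReal.ofReal (deriv g x) * (ENNReal.ofReal (99 / 100) *
    (Set.Ioo (101 / 100 : ℝ) (199 / 100)).indicator 1 (g x))

lemma lint_comp (g : Equiv.Perm ℝ) (hm : StrictMono g) (hg : Differentiable ℝ g) (u : ℝ → ℝ≥0∞) :
    ∫⁻ x, ENNReal.ofReal (deriv g x) * u (g x) = ∫⁻ y, u y := by
  have h1 := lintegral_image_eq_lintegral_abs_deriv_mul (s := Set.univ) (f := g) (f' := deriv g)
    MeasurableSet.univ (fun x _ => (hg x).hasDerivAt.hasDerivWithinAt) g.injective.injOn u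
  rw [Set.image_univ, g.range_eq_univ, setLIntegral_univ, setLIntegral_univ] at h1
  rw [h1]
  congr 1
  ext x
  rw [abs_of_nonneg (hm.monotone.deriv_nonneg)]

lemma int_Wt (g : Equiv.Perm ℝ) (hm : StrictMono g) (hg : Differentiable ℝ g) :
    ∫⁻ x, Wt g x = 1 := by
  unfold Wt
  rw [lint_comp g hm hg, lintegral_indicator_one measurableSet_Ioo, Real.volume_Ioo]
  norm_num

lemma int_Vt (g : Equiv.Perm ℝ) (hm : StrictMono g) (hg : Differentiable ℝ g) :
    ∫⁻ x, Vt g x = ENNReal.ofReal (9702 / 10000) := by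
  unfold Vt
  rw [lint_comp g hm hg (fun y => ENNReal.ofReal (99 / 100) *
    (Set.Ioo (101 / 100 : ℝ) (199 / 100)).indicator 1 y), lintegral_const_mul,
    lintegral_indicator_one measurableSet_Ioo, Real.volume_Ioo, ← ENNReal.ofReal_mul (by norm_num)]
  · norm_num
  · exact measurable_one.indicator measurableSet_Ioo

lemma meas_Wt (g : Equiv.Perm ℝ) (hg : Differentiable ℝ g) : Measurable (Wt g) := by
  unfold Wt
  refine (measurable_deriv _).ennreal_ofReal.mul ?_
  exact (measurable_one.indicator measurableSet_Ioo).comp hg.continuous.measurable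

lemma meas_Vt (g : Equiv.Perm ℝ) (hg : Differentiable ℝ g) : Measurable (Vt g) := by
  unfold Vt
  refine (measurable_deriv _).ennreal_ofReal.mul (measurable_const.mul ?_)
  exact (measurable_one.indicator measurableSet_Ioo).comp hg.continuous.measurable

theorem iso (D : OwnData) (hJ : ∀ i, Set.Ioo (1 : ℝ) 2 ⊆ D.K i)
    (hdisp : ∀ i x, |D.h i x - x| ≤ 1 / 100)
    (hder : ∀ i x, 99 / 100 ≤ deriv (D.h i) x)
    (hmono : ∀ g ∈ D.G, StrictMono g) (hdiff : ∀ g ∈ D.G, Differentiable ℝ g)
    [DecidableEq D.G] (F : Finset D.G) :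
    25 * ((F.filter (fun g => (⟨D.h true, D.h_mem true⟩ : D.G) * g ∈ F)).card +
      (F.filter (fun g => (⟨D.h false, D.h_mem false⟩ : D.G) * g ∈ F)).card) ≤ 26 * F.card := by
  classical
  set a : Bool → D.G := fun i => ⟨D.h i, D.h_mem i⟩ with ha
  set P : Finset (Σ _ : Bool, D.G) :=
    (Finset.univ : Finset Bool).sigma (fun i => F.filter (fun g => a i * g ∈ F)) with hP
  have hPc : P.card = (F.filter (fun g => a true * g ∈ F)).card +
      (F.filter (fun g => a false * g ∈ F)).card := by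
    rw [hP, Finset.card_sigma, Fintype.sum_bool]
  -- pointwise inequality
  have hpt : ∀ x : ℝ, ∑ p ∈ P, Vt p.2 x ≤ ∑ k ∈ F, Wt k x := by
    intro x
    set Px := P.filter (fun p => (p.2 : Equiv.Perm ℝ) x ∈ Set.Ioo (101 / 100 : ℝ) (199 / 100))
      with hPx
    have e1 : ∑ p ∈ P, Vt p.2 x = ∑ p ∈ Px, Vt p.2 x := by
      rw [hPx, Finset.sum_filter]
      refine Finset.sum_congr rfl (fun p _ => ?_)
      split_ifs with h
      · rfl
      · unfold Vt
        rw [Set.indicator_of_notMem h]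
        simp
    rw [e1]
    set γ : (Σ _ : Bool, D.G) → D.G := fun p =>
      if D.own' p.1 ((p.2 : Equiv.Perm ℝ) x) = (p.2 : Equiv.Perm ℝ) x then p.2 else a p.1 * p.2
      with hγ
    have hK : ∀ p ∈ Px, (p.2 : Equiv.Perm ℝ) x ∈ D.K p.1 := by
      intro p hp
      have := (Finset.mem_filter.1 hp).2
      exact hJ _ ⟨by linarith [this.1], by linarith [this.2]⟩
    have hγx : ∀ p ∈ Px, ((γ p : D.G) : Equiv.Perm ℝ) x = D.own' p.1 ((p.2 : Equiv.Perm ℝ) x) := by
      intro p hp
      rw [hγ]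
      simp only
      split_ifs with h
      · exact h.symm
      · rcases D.own'_mem (hK p hp) with h' | h'
        · exact absurd h' h
        · rw [h']
          rfl
    have hinj : Set.InjOn γ Px := by
      intro p hp q hq hpq
      have hp' := hγx p hp
      have hq' := hγx q hq
      rw [hpq, hq'] at hp'
      obtain ⟨h1, h2⟩ := D.own'_inj (hK q hq) (hK p hp) hp'
      obtain ⟨i, g⟩ := p
      obtain ⟨j, g'⟩ := q
      simp only at h1 h2
      subst h1
      simp only [hγ] at hpq
      rw [h2] at hpq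
      by_cases h : D.own' j ((g : Equiv.Perm ℝ) x) = (g : Equiv.Perm ℝ) x
      · rw [if_pos h, if_pos h] at hpq
        rw [hpq]
      · rw [if_neg h, if_neg h] at hpq
        rw [mul_left_cancel hpq]
    have hle : ∀ p ∈ Px, Vt p.2 x ≤ Wt (γ p) x := by
      intro p hp
      have hI := (Finset.mem_filter.1 hp).2
      rw [hγ]
      simp only
      split_ifs with h
      · unfold Vt Wt
        rw [Set.indicator_of_mem hI, Set.indicator_of_mem (show (p.2 : Equiv.Perm ℝ) x ∈
          Set.Ioo (1 : ℝ) 2 from ⟨by linarith [hI.1], by linarith [hI.2]⟩)]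
        gcongr
        simp
        norm_num
      · unfold Vt Wt
        have hd := abs_le.1 (hdisp p.1 ((p.2 : Equiv.Perm ℝ) x))
        have hmem : ((a p.1 * p.2 : D.G) : Equiv.Perm ℝ) x ∈ Set.Ioo (1 : ℝ) 2 := by
          show D.h p.1 ((p.2 : Equiv.Perm ℝ) x) ∈ Set.Ioo (1 : ℝ) 2
          constructor
          · linarith [hI.1, hd.1]
          · linarith [hI.2, hd.2]
        rw [Set.indicator_of_mem hI, Set.indicator_of_mem hmem]
        have hder2 : deriv ((a p.1 * p.2 : D.G) : Equiv.Perm ℝ) x =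
            deriv (D.h p.1) ((p.2 : Equiv.Perm ℝ) x) * deriv (p.2 : Equiv.Perm ℝ) x := by
          have h1 := (hdiff _ (D.h_mem p.1) ((p.2 : Equiv.Perm ℝ) x)).hasDerivAt
          have h2 := (hdiff _ p.2.2 x).hasDerivAt
          have h3 := h1.comp x h2
          exact h3.deriv
        rw [hder2]
        simp only [Pi.one_apply, mul_one]
        rw [← ENNReal.ofReal_mul (hmono _ p.2.2).monotone.deriv_nonneg]
        apply ENNReal.ofReal_le_ofReal
        rw [mul_comm]
        exact mul_le_mul_of_nonneg_right (hder _ _) (hmono _ p.2.2).monotone.deriv_nonneg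
    calc ∑ p ∈ Px, Vt p.2 x ≤ ∑ p ∈ Px, Wt (γ p) x := Finset.sum_le_sum hle
      _ = ∑ k ∈ Px.image γ, Wt k x := by
        rw [Finset.sum_image (fun p hp q hq h => hinj hp hq h)]
      _ ≤ ∑ k ∈ F, Wt k x := by
        apply Finset.sum_le_sum_of_subset
        intro k hk
        obtain ⟨p, hp, rfl⟩ := Finset.mem_image.1 hk
        have h1 := (Finset.mem_filter.1 hp).1
        rw [hP, Finset.mem_sigma] at h1
        have h2 := Finset.mem_filter.1 h1.2
        rw [hγ]
        simp only
        split_ifs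
        · exact h2.1
        · exact h2.2
  have hint := lintegral_mono (μ := (volume : Measure ℝ)) hpt
  rw [lintegral_finset_sum _ (fun p _ => meas_Vt _ (hdiff _ p.2.2)),
    lintegral_finset_sum _ (fun k _ => meas_Wt _ (hdiff _ k.2))] at hint
  rw [Finset.sum_congr rfl (fun (p : Σ _ : Bool, D.G) _ => int_Vt _ (hmono _ p.2.2)
    (hdiff _ p.2.2)), Finset.sum_congr rfl (fun (k : D.G) _ => int_Wt _ (hmono _ k.2)
    (hdiff _ k.2))] at hint
  rw [Finset.sum_const, Finset.sum_const, nsmul_eq_mul, nsmul_eq_mul, mul_one] at hint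
  have h2 : ((P.card : ℝ)) * (9702 / 10000) ≤ F.card := by
    have e1 : (P.card : ℝ≥0∞) = ENNReal.ofReal (P.card : ℝ) := by simp
    have e2 : (F.card : ℝ≥0∞) = ENNReal.ofReal (F.card : ℝ) := by simp
    rw [e1, e2, ← ENNReal.ofReal_mul (by positivity)] at hint
    exact (ENNReal.ofReal_le_ofReal_iff (by positivity)).1 hint
  rw [← hPc]
  have h3 : (25 : ℝ) * P.card ≤ 26 * F.card := by nlinarith
  exact_mod_cast h3

end Pool.Agent.H77.NF
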