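import Mathlib
import Pool.Agent.H77.NF.FreeComm

set_option autoImplicit false
open Filter Topology
open scoped commutatorElement

namespace Pool.Agent.H77.NF

section

variable (G : Subgroup (Equiv.Perm ℝ)) (hmono : ∀ g ∈ G, StrictMono g)
  (hcont : ∀ g ∈ G, Continuous g) (A B : ℝ) (hout : ∀ g ∈ G, ∀ x, x ∉ Set.Ioo A B → g x = x)
  (hcomm : ∀ f ∈ G, ∀ g ∈ G, ∀ q, f q = q → g q = q → ∀ᶠ x in 𝓝 q, f (g x) = g (f x))
  (φ : FreeGroup (Fin 2) →* G)

/-- the action of a word -/
def act (w : FreeGroup (Fin 2)) : Equiv.Perm ℝ := (φ w : Equiv.Perm ℝ)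

/-- common fixed points -/
def Kset : Set ℝ := {x | ∀ w, act G φ w x = x}

lemma act_mem (w : FreeGroup (Fin 2)) : act G φ w ∈ G := (φ w).2

lemma act_mul (w v : FreeGroup (Fin 2)) (x : ℝ) :
    act G φ (w * v) x = act G φ w (act G φ v x) := by
  simp [act]

lemma act_one (x : ℝ) : act G φ 1 x = x := by simp [act]

lemma act_inv_act (w : FreeGroup (Fin 2)) (x : ℝ) : act G φ w⁻¹ (act G φ w x) = x := by
  rw [← act_mul]; simp [act_one]

lemma act_act_inv (w : FreeGroup (Fin 2)) (x : ℝ) : act G φ w (act G φ w⁻¹ x) = x := by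
  rw [← act_mul]; simp [act_one]

include hmono in
lemma act_mono (w : FreeGroup (Fin 2)) : StrictMono (act G φ w) := hmono _ (act_mem G φ w)

include hcomm hcont in
/-- commutators act trivially near common fixed points -/
lemma comm_near {w : FreeGroup (Fin 2)} (hw : w ∈ commutator (FreeGroup (Fin 2)))
    {q : ℝ} (hq : q ∈ Kset G φ) : ∀ᶠ x in 𝓝 q, act G φ w x = x := by
  let S : Subgroup (FreeGroup (Fin 2)) :=
    { carrier := {w | ∀ᶠ x in 𝓝 q, act G φ w x = x}
      one_mem' := by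
        show ∀ᶠ x in 𝓝 q, act G φ 1 x = x
        simp [act_one]
      mul_mem' := by
        intro a b ha hb
        show ∀ᶠ x in 𝓝 q, act G φ (a * b) x = x
        have ha' : ∀ᶠ x in 𝓝 q, act G φ a x = x := ha
        have hb' : ∀ᶠ x in 𝓝 q, act G φ b x = x := hb
        filter_upwards [ha', hb'] with x h1 h2
        rw [act_mul, h2, h1]
      inv_mem' := by
        intro a ha
        show ∀ᶠ x in 𝓝 q, act G φ a⁻¹ x = x
        have ha' : ∀ᶠ x in 𝓝 q, act G φ a x = x := ha
        filter_upwards [ha'] with x h1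
        conv_lhs => rw [← h1]
        rw [act_inv_act] }
  have key : commutator (FreeGroup (Fin 2)) ≤ S := by
    rw [commutator_def, Subgroup.commutator_le]
    intro a _ b _
    show ∀ᶠ x in 𝓝 q, act G φ ⁅a, b⁆ x = x
    have h1 := hcomm _ (act_mem G φ a) _ (act_mem G φ b) q (hq a) (hq b)
    have t : Tendsto (act G φ (a⁻¹ * b⁻¹)) (𝓝 q) (𝓝 q) := by
      have := (hcont _ (act_mem G φ (a⁻¹ * b⁻¹))).tendsto q
      rwa [hq] at this
    filter_upwards [t.eventually h1] with x hx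
    rw [commutatorElement_def, mul_assoc, mul_assoc, act_mul, act_mul, hx, ← act_mul, ← act_mul]
    rw [show b * a * (a⁻¹ * b⁻¹) = 1 by group, act_one]
  exact key hw

lemma Kset_inv {x : ℝ} (w : FreeGroup (Fin 2)) (h : act G φ w x ∈ Kset G φ) : x ∈ Kset G φ := by
  have h1 := h w⁻¹
  rw [act_inv_act] at h1
  rw [← h1] at h
  exact h

/-- a family of intervals covers the support of `w` -/
def Cov (w : FreeGroup (Fin 2)) (n : ℕ) : Prop :=
  ∃ T : Finset (ℝ × ℝ), T.card = n ∧
    (∀ t ∈ T, t.1 ∈ Kset G φ ∧ t.2 ∈ Kset G φ ∧ ∀ z ∈ Kset G φ, z ∉ Set.Ioo t.1 t.2) ∧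
    ∀ x, act G φ w x ≠ x → ∃ t ∈ T, x ∈ Set.Ioo t.1 t.2

include hout in
lemma orbit_mem {x : ℝ} (w : FreeGroup (Fin 2)) (hx : x ∈ Set.Ioo A B) :
    act G φ w x ∈ Set.Ioo A B := by
  by_contra h
  have h1 := hout _ (act_mem G φ w⁻¹) _ h
  rw [act_inv_act] at h1
  rw [← h1] at h
  exact h hx

include hout in
lemma notK_mem {x : ℝ} (hx : x ∉ Kset G φ) : x ∈ Set.Ioo A B := by
  by_contra h
  exact hx (fun w => hout _ (act_mem G φ w) _ h)

/-- the orbit -/
def orb (x : ℝ) : Set ℝ := Set.range (fun w => act G φ w x)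

include hmono hout in
lemma sup_mem {x : ℝ} (hx : x ∉ Kset G φ) :
    sSup (orb G φ x) ∈ Kset G φ ∧ x < sSup (orb G φ x) := by
  have hxI := notK_mem G A B hout φ hx
  have hb : BddAbove (orb G φ x) := ⟨B, by
    rintro _ ⟨w, rfl⟩
    exact (orbit_mem G A B hout φ w hxI).2.le⟩
  have hne : (orb G φ x).Nonempty := ⟨_, 1, rfl⟩
  have hle : ∀ w, act G φ w (sSup (orb G φ x)) ≤ sSup (orb G φ x) := by
    intro w
    by_contra hlt
    push Not at hlt
    have h1 : act G φ w⁻¹ (sSup (orb G φ x)) < sSup (orb G φ x) := by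
      have := act_mono G hmono φ w⁻¹ hlt
      rwa [act_inv_act] at this
    obtain ⟨_, ⟨v, rfl⟩, hv⟩ := exists_lt_of_lt_csSup hne h1
    have h2 := act_mono G hmono φ w hv
    rw [act_act_inv] at h2
    have h3 : act G φ w (act G φ v x) ≤ sSup (orb G φ x) :=
      le_csSup hb ⟨w * v, by simp [act_mul]⟩
    exact absurd (lt_of_lt_of_le h2 h3) (lt_irrefl _)
  refine ⟨fun w => le_antisymm (hle w) ?_, ?_⟩
  · have h1 := (act_mono G hmono φ w).monotone (hle w⁻¹)
    rwa [act_act_inv] at h1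
  · have : ∃ w, act G φ w x ≠ x := by
      by_contra hcon
      push Not at hcon
      exact hx hcon
    obtain ⟨w, hw⟩ := this
    rcases lt_or_gt_of_ne hw with h | h
    · have h1 := act_mono G hmono φ w⁻¹ h
      rw [act_inv_act] at h1
      exact lt_of_lt_of_le h1 (le_csSup hb ⟨w⁻¹, rfl⟩)
    · exact lt_of_lt_of_le h (le_csSup hb ⟨w, rfl⟩)

include hmono hout in
lemma inf_mem {x : ℝ} (hx : x ∉ Kset G φ) :
    sInf (orb G φ x) ∈ Kset G φ ∧ sInf (orb G φ x) < x := by
  have hxI := notK_mem G A B hout φ hx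
  have hb : BddBelow (orb G φ x) := ⟨A, by
    rintro _ ⟨w, rfl⟩
    exact (orbit_mem G A B hout φ w hxI).1.le⟩
  have hne : (orb G φ x).Nonempty := ⟨_, 1, rfl⟩
  have hle : ∀ w, sInf (orb G φ x) ≤ act G φ w (sInf (orb G φ x)) := by
    intro w
    by_contra hlt
    push Not at hlt
    have h1 : sInf (orb G φ x) < act G φ w⁻¹ (sInf (orb G φ x)) := by
      have := act_mono G hmono φ w⁻¹ hlt
      rwa [act_inv_act] at this
    obtain ⟨_, ⟨v, rfl⟩, hv⟩ := exists_lt_of_csInf_lt hne h1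
    have h2 := act_mono G hmono φ w hv
    rw [act_act_inv] at h2
    have h3 : sInf (orb G φ x) ≤ act G φ w (act G φ v x) :=
      csInf_le hb ⟨w * v, by simp [act_mul]⟩
    exact absurd (lt_of_lt_of_le h2 h3) (lt_irrefl _)
  refine ⟨fun w => le_antisymm ?_ (hle w), ?_⟩
  · have h1 := (act_mono G hmono φ w).monotone (hle w⁻¹)
    rwa [act_act_inv] at h1
  · have : ∃ w, act G φ w x ≠ x := by
      by_contra hcon
      push Not at hcon
      exact hx hcon
    obtain ⟨w, hw⟩ := this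
    rcases lt_or_gt_of_ne hw with h | h
    · exact lt_of_le_of_lt (csInf_le hb ⟨w, rfl⟩) h
    · have h1 := act_mono G hmono φ w⁻¹ h
      rw [act_inv_act] at h1
      exact lt_of_le_of_lt (csInf_le hb ⟨w⁻¹, rfl⟩) h1

include hmono in
lemma Ioo_disj {x z : ℝ} (hz : z ∈ Kset G φ) :
    z ∉ Set.Ioo (sInf (orb G φ x)) (sSup (orb G φ x)) := by
  rintro ⟨h1, h2⟩
  have hne : (orb G φ x).Nonempty := ⟨_, 1, rfl⟩
  rcases le_total x z with h | h
  · obtain ⟨_, ⟨w, rfl⟩, hw⟩ := exists_lt_of_lt_csSup hne h2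
    have := (act_mono G hmono φ w).monotone h
    rw [hz w] at this
    exact absurd (lt_of_lt_of_le hw this) (lt_irrefl _)
  · obtain ⟨_, ⟨w, rfl⟩, hw⟩ := exists_lt_of_csInf_lt hne h1
    have := (act_mono G hmono φ w).monotone h
    rw [hz w] at this
    exact absurd (lt_of_le_of_lt this hw) (lt_irrefl _)

include hmono hcont hout hcomm in
lemma exists_cov {w : FreeGroup (Fin 2)} (hw : w ∈ commutator (FreeGroup (Fin 2))) :
    ∃ n, Cov G φ w n := by
  classical
  set C : Set ℝ := closure {x | act G φ w x ≠ x} with hC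
  have hsub : {x | act G φ w x ≠ x} ⊆ Set.Icc A B := by
    intro x hx
    have : x ∈ Set.Ioo A B := notK_mem G A B hout φ (fun h => hx (h w))
    exact ⟨this.1.le, this.2.le⟩
  have hCc : IsCompact C :=
    (isCompact_Icc (a := A) (b := B)).of_isClosed_subset isClosed_closure
      (closure_minimal hsub isClosed_Icc)
  have hCK : ∀ x ∈ C, x ∉ Kset G φ := by
    intro x hx hK
    have h1 := comm_near G hcont hcomm φ hw hK
    rw [hC, mem_closure_iff_frequently] at hx
    exact hx (h1.mono (fun y hy h => h hy))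
  obtain ⟨t, ht⟩ := hCc.elim_finite_subcover
    (fun x : C => Set.Ioo (sInf (orb G φ x)) (sSup (orb G φ x))) (fun _ => isOpen_Ioo)
    (fun x hx => Set.mem_iUnion.2 ⟨⟨x, hx⟩, (inf_mem G hmono A B hout φ (hCK x hx)).2,
      (sup_mem G hmono A B hout φ (hCK x hx)).2⟩)
  refine ⟨_, t.image (fun x : C => (sInf (orb G φ x), sSup (orb G φ x))), rfl, ?_, ?_⟩
  · intro p hp
    obtain ⟨x, _, rfl⟩ := Finset.mem_image.1 hp
    refine ⟨(inf_mem G hmono A B hout φ (hCK x x.2)).1, (sup_mem G hmono A B hout φ (hCK x x.2)).1,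
      fun z hz => Ioo_disj G hmono φ hz⟩
  · intro x hx
    have hxC : x ∈ C := subset_closure hx
    obtain ⟨y, hy⟩ := Set.mem_iUnion.1 (ht hxC)
    obtain ⟨hyt, hxy⟩ := Set.mem_iUnion.1 hy
    exact ⟨_, Finset.mem_image.2 ⟨y, hyt, rfl⟩, hxy⟩

lemma Ioo_inv {p r x : ℝ} (hmono : ∀ g ∈ G, StrictMono g) (hp : p ∈ Kset G φ) (hr : r ∈ Kset G φ)
    (w : FreeGroup (Fin 2)) (hx : x ∈ Set.Ioo p r) : act G φ w x ∈ Set.Ioo p r := by
  constructor
  · have := act_mono G hmono φ w hx.1
    rwa [hp w] at this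
  · have := act_mono G hmono φ w hx.2
    rwa [hr w] at this

lemma Ioo_inv' {p r x : ℝ} (hmono : ∀ g ∈ G, StrictMono g) (hp : p ∈ Kset G φ) (hr : r ∈ Kset G φ)
    (w : FreeGroup (Fin 2)) (hx : act G φ w x ∈ Set.Ioo p r) : x ∈ Set.Ioo p r := by
  have := Ioo_inv G φ hmono hp hr w⁻¹ hx
  rwa [act_inv_act] at this

lemma zpow_fix {f : Equiv.Perm ℝ} (hf : StrictMono f) {x : ℝ} {i : ℤ} (hi : i ≠ 0)
    (h : (f ^ i) x = x) : f x = x := by
  have nat : ∀ (g : Equiv.Perm ℝ), StrictMono g → ∀ n : ℕ, n ≠ 0 → (g ^ n) x = x → g x = x := by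
    intro g hg n hn hx
    have hiter : (g ^ n) x = g^[n] x := by
      rw [Equiv.Perm.iterate_eq_pow]
    rw [hiter] at hx
    obtain ⟨m, rfl⟩ := Nat.exists_eq_succ_of_ne_zero hn
    rcases lt_trichotomy (g x) x with h | h | h
    · exfalso
      have h1 : ∀ k, g^[k] x ≤ x := by
        intro k
        induction k with
        | zero => exact le_refl _
        | succ k ih =>
          rw [Function.iterate_succ_apply']
          exact (hg.monotone ih).trans h.le
      rw [Function.iterate_succ_apply'] at hx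
      have := (hg.monotone (h1 m)).trans_lt h
      exact absurd hx this.ne
    · exact h
    · exfalso
      have h1 : ∀ k, x ≤ g^[k] x := by
        intro k
        induction k with
        | zero => exact le_refl _
        | succ k ih =>
          rw [Function.iterate_succ_apply']
          exact h.le.trans (hg.monotone ih)
      rw [Function.iterate_succ_apply'] at hx
      have := h.trans_le (hg.monotone (h1 m))
      exact absurd hx this.ne'
  rcases Int.natAbs_eq i with hi' | hi'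
  · have h2 : (f ^ i.natAbs) x = x := by
      rw [hi'] at h
      rwa [zpow_natCast] at h
    exact nat f hf _ (Int.natAbs_ne_zero.2 hi) h2
  · have h2 : (f ^ i.natAbs) x = x := by
      rw [hi', zpow_neg, zpow_natCast] at h
      have := congrArg (f ^ i.natAbs) h
      rw [← Equiv.Perm.mul_apply, mul_inv_cancel, Equiv.Perm.one_apply] at this
      exact this.symm
    exact nat f hf _ (Int.natAbs_ne_zero.2 hi) h2

end

theorem no_free (G : Subgroup (Equiv.Perm ℝ)) (hmono : ∀ g ∈ G, StrictMono g)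
    (hcont : ∀ g ∈ G, Continuous g) (A B : ℝ) (hout : ∀ g ∈ G, ∀ x, x ∉ Set.Ioo A B → g x = x)
    (hcomm : ∀ f ∈ G, ∀ g ∈ G, ∀ q, f q = q → g q = q → ∀ᶠ x in 𝓝 q, f (g x) = g (f x)) :
    ¬ ∃ φ : FreeGroup (Fin 2) →* G, Function.Injective φ := by
  classical
  rintro ⟨φ, hφ⟩
  have hne1 : ∀ w : FreeGroup (Fin 2), w ≠ 1 → ∃ x, act G φ w x ≠ x := by
    intro w hw
    by_contra hcon
    push Not at hcon
    apply hw
    apply hφ
    rw [map_one]
    apply Subtype.ext
    ext x
    exact hcon x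
  set c0 : FreeGroup (Fin 2) := ⁅FreeGroup.of (0 : Fin 2), FreeGroup.of (1 : Fin 2)⁆ with hc0
  have hc0m : c0 ∈ commutator (FreeGroup (Fin 2)) :=
    by
      rw [commutator_def]
      exact Subgroup.commutator_mem_commutator (Subgroup.mem_top _) (Subgroup.mem_top _)
  have hc01 : c0 ≠ 1 := by
    rw [hc0]
    decide
  have hex : ∃ n, ∃ w ∈ commutator (FreeGroup (Fin 2)), w ≠ 1 ∧ Cov G φ w n := by
    obtain ⟨n, hn⟩ := exists_cov G hmono hcont A B hout hcomm φ hc0m
    exact ⟨n, c0, hc0m, hc01, hn⟩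
  obtain ⟨w, hwm, hw1, T, hTc, hTK, hTcov⟩ := Nat.find_spec hex
  have hmin : ∀ m, m < Nat.find hex → ∀ v ∈ commutator (FreeGroup (Fin 2)), Cov G φ v m → v = 1 := by
    intro m hm v hv hcov
    by_contra h1
    exact Nat.find_min hex hm ⟨v, hv, h1, hcov⟩
  obtain ⟨y0, hy0⟩ := hne1 w hw1
  obtain ⟨t, htT, hy0t⟩ := hTcov y0 hy0
  have hcard : (T.erase t).card < Nat.find hex := by
    rw [← hTc]
    exact Finset.card_erase_lt_of_mem htT
  obtain ⟨hK1, hK2, hKn⟩ := hTK t htT
  -- moved points of w inside t are in a compact interval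
  have near1 := comm_near G hcont hcomm φ hwm hK1
  have near2 := comm_near G hcont hcomm φ hwm hK2
  obtain ⟨c, hc, hc'⟩ : ∃ c, c ∈ Set.Ioo t.1 t.2 ∧ ∀ x ∈ Set.Ioo t.1 t.2, act G φ w x ≠ x → c ≤ x := by
    obtain ⟨ε, hε, hball⟩ := Metric.eventually_nhds_iff.1 near1
    refine ⟨min (t.1 + ε / 2) y0, ⟨lt_min (by linarith) hy0t.1, lt_of_le_of_lt (min_le_right _ _) hy0t.2⟩, ?_⟩
    intro x hx hmv
    by_contra hlt
    push Not at hlt
    apply hmv
    apply hball
    rw [Real.dist_eq, abs_of_pos (by linarith [hx.1])]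
    have := lt_of_lt_of_le hlt (min_le_left _ _)
    linarith
  obtain ⟨d, hd, hd'⟩ : ∃ d, d ∈ Set.Ioo t.1 t.2 ∧ ∀ x ∈ Set.Ioo t.1 t.2, act G φ w x ≠ x → x ≤ d := by
    obtain ⟨ε, hε, hball⟩ := Metric.eventually_nhds_iff.1 near2
    refine ⟨max (t.2 - ε / 2) y0, ⟨lt_of_lt_of_le hy0t.1 (le_max_right _ _), max_lt (by linarith) hy0t.2⟩, ?_⟩
    intro x hx hmv
    by_contra hlt
    push Not at hlt
    apply hmv
    apply hball
    rw [Real.dist_eq, abs_of_neg (by linarith [hx.2])]
    have := lt_of_le_of_lt (le_max_left _ _) hlt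
    linarith
  -- h moves c beyond d
  have hcK : c ∉ Kset G φ := fun h => hKn c h hc
  obtain ⟨hsK, hcs⟩ := sup_mem G hmono A B hout φ hcK
  have hst : t.2 ≤ sSup (orb G φ c) := by
    by_contra hlt
    push Not at hlt
    exact hKn _ hsK ⟨lt_trans hc.1 hcs, hlt⟩
  obtain ⟨_, ⟨h, rfl⟩, hh⟩ := exists_lt_of_lt_csSup (s := orb G φ c) ⟨_, 1, rfl⟩
    (lt_of_lt_of_le hd.2 hst)
  set w2 : FreeGroup (Fin 2) := h * w * h⁻¹ with hw2
  have hw2m : w2 ∈ commutator (FreeGroup (Fin 2)) :=
    (inferInstance : (commutator (FreeGroup (Fin 2))).Normal).conj_mem w hwm h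
  have hw21 : w2 ≠ 1 := by
    intro h1
    apply hw1
    have : w = h⁻¹ * w2 * h := by rw [hw2]; group
    rw [this, h1]; group
  have act2 : ∀ x, act G φ w2 x = act G φ h (act G φ w (act G φ h⁻¹ x)) := by
    intro x
    rw [hw2, act_mul, act_mul]
  have moved2 : ∀ x ∈ Set.Ioo t.1 t.2, act G φ w2 x ≠ x → d < x := by
    intro x hx hmv
    have h1 : act G φ w (act G φ h⁻¹ x) ≠ act G φ h⁻¹ x := by
      intro h2
      apply hmv
      rw [act2, h2, act_act_inv]
    have h2 := hc' _ (Ioo_inv G φ hmono hK1 hK2 h⁻¹ hx) h1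
    have h3 := (act_mono G hmono φ h).monotone h2
    rw [act_act_inv] at h3
    exact lt_of_lt_of_le hh h3
  -- they commute on t
  have fixmv : ∀ (v : FreeGroup (Fin 2)) x, act G φ v (act G φ v x) = act G φ v x →
      act G φ v x = x := fun v x hx => (act G φ v).injective hx
  have hcommt : ∀ x ∈ Set.Ioo t.1 t.2, act G φ w (act G φ w2 x) = act G φ w2 (act G φ w x) := by
    intro x hx
    by_cases h2 : act G φ w2 x = x
    · rw [h2]
      by_cases h1 : act G φ w x = x
      · rw [h1, h2]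
      · by_contra h3
        have hm : act G φ w2 (act G φ w x) ≠ act G φ w x := fun h4 => h3 h4.symm
        have hI := Ioo_inv G φ hmono hK1 hK2 w hx
        have h5 := moved2 _ hI hm
        have h6 := hd' _ hI (fun h7 => h1 (fixmv w x h7))
        linarith
    · have hI := Ioo_inv G φ hmono hK1 hK2 w2 hx
      have h5 := moved2 _ hx h2
      have h6 := moved2 _ hI (fun h7 => h2 (fixmv w2 x h7))
      have h7 : act G φ w x = x := by
        by_contra h8
        have := hd' _ hx h8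
        linarith
      have h8 : act G φ w (act G φ w2 x) = act G φ w2 x := by
        by_contra h9
        have := hd' _ hI h9
        linarith
      rw [h7, h8]
  set w3 : FreeGroup (Fin 2) := ⁅w, w2⁆ with hw3
  have hw3m : w3 ∈ commutator (FreeGroup (Fin 2)) :=
    by
      rw [commutator_def]
      exact Subgroup.commutator_mem_commutator (Subgroup.mem_top _) (Subgroup.mem_top _)
  have act3 : ∀ x, act G φ w3 x = act G φ w (act G φ w2 (act G φ w⁻¹ (act G φ w2⁻¹ x))) := by
    intro x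
    rw [hw3, commutatorElement_def, act_mul, act_mul, act_mul]
  have hcov3 : Cov G φ w3 (T.erase t).card := by
    refine ⟨T.erase t, rfl, fun s hs => hTK s (Finset.mem_of_mem_erase hs), ?_⟩
    intro x hx
    have hnt : x ∉ Set.Ioo t.1 t.2 := by
      intro hxt
      apply hx
      rw [act3, hcommt _ (Ioo_inv G φ hmono hK1 hK2 w⁻¹ (Ioo_inv G φ hmono hK1 hK2 w2⁻¹ hxt)),
        act_act_inv, act_act_inv]
    by_contra hcon
    push Not at hcon
    have hnone : ∀ s ∈ T, x ∉ Set.Ioo s.1 s.2 := by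
      intro s hs
      by_cases hst : s = t
      · rw [hst]; exact hnt
      · exact hcon s (Finset.mem_erase.2 ⟨hst, hs⟩)
    have hwx : act G φ w x = x := by
      by_contra h1
      obtain ⟨s, hs, hxs⟩ := hTcov x h1
      exact hnone s hs hxs
    have hwx2 : act G φ w (act G φ h⁻¹ x) = act G φ h⁻¹ x := by
      by_contra h1
      obtain ⟨s, hs, hxs⟩ := hTcov _ h1
      exact hnone s hs (Ioo_inv' G φ hmono (hTK s hs).1 (hTK s hs).2.1 h⁻¹ hxs)
    have hw2x : act G φ w2 x = x := by rw [act2, hwx2, act_act_inv]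
    have hi1 : act G φ w⁻¹ x = x := by
      conv_lhs => rw [← hwx]
      rw [act_inv_act]
    have hi2 : act G φ w2⁻¹ x = x := by
      conv_lhs => rw [← hw2x]
      rw [act_inv_act]
    apply hx
    rw [act3, hi2, hi1, hw2x, hwx]
  have hw31 : w3 = 1 := hmin _ hcard w3 hw3m hcov3
  have hww : w * w2 = w2 * w := by
    rw [hw3, commutatorElement_eq_one_iff_mul_comm] at hw31
    exact hw31
  obtain ⟨i, j, hi, hj, hij⟩ := free_comm hw1 hw21 hww
  -- evaluate at y0
  have hfix : act G φ w2 y0 = y0 := by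
    by_contra h1
    have h2 := moved2 _ hy0t h1
    have h3 := hd' _ hy0t hy0
    linarith
  have e1 : (act G φ w ^ i) y0 = y0 := by
    have e : act G φ (w ^ i) = act G φ w ^ i := by simp [act]
    have e' : act G φ (w2 ^ j) = act G φ w2 ^ j := by simp [act]
    rw [← e, hij, e']
    have : Function.IsFixedPt (act G φ w2) y0 := hfix
    exact (Equiv.Perm.zpow_apply_eq_self_of_apply_eq_self hfix j)
  exact hy0 (zpow_fix (act_mono G hmono φ w) hi e1)

end Pool.Agent.H77.NF
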