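import Mathlib
import Pool.Agent.H77.NF.Hall
import Pool.Agent.H77.NF.Iso
import Pool.Agent.H77.NF.NoFree

set_option autoImplicit false
open Filter Topology Set

namespace Pool.Agent.H77.NF

theorem main : ∃ H : Subgroup (Equiv.Perm ℝ),
      (∀ g ∈ H, StrictMono ⇑g ∧ ContDiff ℝ 2 ⇑g ∧ ContDiff ℝ 2 ⇑(g.symm)) ∧
      (¬ ∃ m : Set ↥H → ℝ,
          (∀ A : Set ↥H, 0 ≤ m A) ∧
          m Set.univ = 1 ∧
          (∀ A B : Set ↥H, Disjoint A B → m (A ∪ B) = m A + m B) ∧
          (∀ (g : ↥H) (A : Set ↥H), m ((fun x => g * x) ⁻¹' A) = m A)) ∧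
      (¬ ∃ f : FreeGroup (Fin 2) →* ↥H, Function.Injective f) := by
  classical
  obtain ⟨D, hK, θ, hh⟩ := exists_data
  have hsmooth : ∀ g ∈ D.G, StrictMono ⇑g ∧ ContDiff ℝ 2 ⇑g ∧ ContDiff ℝ 2 ⇑(g.symm) ∧
      StrictMono ⇑(g.symm) := by
    intro g hg
    refine Subgroup.closure_induction (p := fun (g : Equiv.Perm ℝ) _ => StrictMono ⇑g ∧
      ContDiff ℝ 2 ⇑g ∧ ContDiff ℝ 2 ⇑(g.symm) ∧ StrictMono ⇑(g.symm)) ?_ ?_ ?_ ?_ hg
    · rintro _ ⟨i, rfl⟩
      rw [hh i]
      refine ⟨Hm_mono θ i, Hm_contDiff θ i, Hh_symm_contDiff θ i, ?_⟩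
      exact (OrderIso.strictMono _ : StrictMono
        ((Hm_mono θ i).orderIsoOfSurjective _ (Hm_surj θ i)).symm)
    · exact ⟨strictMono_id, contDiff_id, contDiff_id, strictMono_id⟩
    · rintro x y _ _ ⟨hx1, hx2, hx3, hx4⟩ ⟨hy1, hy2, hy3, hy4⟩
      exact ⟨hx1.comp hy1, hx2.comp hy2, hy3.comp hx3, hy4.comp hx4⟩
    · rintro x _ ⟨hx1, hx2, hx3, hx4⟩
      exact ⟨hx4, hx3, hx2, hx1⟩
  have hmono : ∀ g ∈ D.G, StrictMono ⇑g := fun g hg => (hsmooth g hg).1
  have hdiff : ∀ g ∈ D.G, Differentiable ℝ ⇑g := fun g hg =>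
    (hsmooth g hg).2.1.differentiable (by norm_num)
  have hcont : ∀ g ∈ D.G, Continuous ⇑g := fun g hg => (hdiff g hg).continuous
  refine ⟨D.G, fun g hg => ⟨(hsmooth g hg).1, (hsmooth g hg).2.1, (hsmooth g hg).2.2.1⟩, ?_, ?_⟩
  · apply no_mean (⟨D.h true, D.h_mem true⟩ : D.G) (⟨D.h false, D.h_mem false⟩ : D.G)
    intro F
    apply iso D _ _ _ hmono hdiff
    · intro i
      rw [hK i]
      intro x hx
      cases i
      · exact ⟨by simp [lo]; linarith [hx.1], by simp [hi]; linarith [hx.2]⟩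
      · exact ⟨by simp [lo]; linarith [hx.1], by simp [hi]; linarith [hx.2]⟩
    · intro i x
      rw [hh i]
      exact Hm_disp θ i x
    · intro i x
      rw [hh i]
      exact Hm_deriv θ i x
  · refine no_free D.G hmono hcont 0 3 ?_ ?_
    · intro g hg x hx
      refine Subgroup.closure_induction (p := fun (g : Equiv.Perm ℝ) _ => g x = x) ?_ ?_ ?_ ?_ hg
      · rintro _ ⟨i, rfl⟩
        rw [hh i]
        show Hm θ i x = x
        apply Hm_out
        intro h
        apply hx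
        cases i
        · exact ⟨by have := h.1; simp [lo] at this; linarith, by have := h.2; simpa [hi] using this⟩
        · exact ⟨by have := h.1; simpa [lo] using this, by have := h.2; simp [hi] at this; linarith⟩
      · rfl
      · intro a b _ _ ha hb
        rw [Equiv.Perm.mul_apply, hb, ha]
      · intro a _ ha
        rw [Equiv.Perm.inv_eq_iff_eq]
        exact ha.symm
    · intro f hf g hg q hfq hgq
      exact D.commute_germs hf hg q hfq hgq

end Pool.Agent.H77.NF
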